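import Pool.Agent.Lib.GeoOrig.BraidScal

/-!
# Sheaves of bounded rank on configuration spaces of curves

In the application `P` is the tame fundamental group of the space of configurations of `n - m`
points on a smooth affine curve over a finite field, of genus `g` and with `p` points at infinity,
and `m = 2 g + p - 1`.
-/

open Matrix Pool.Agent.BraidRep

namespace Pool.Agent.Results.MP_80bee4_ag.BoundedSupport

/-- Let `A i j`, for `i < j` and `m ≤ j`, be elements of a topological group `P` which satisfy
those of Artin's relations which involve at most one index smaller than `m`. They hold for the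
standard generators of the fundamental group of the space of configurations of `n - m` points on
an affine curve (the indices `i < m` stand for handles and punctures, the others for the moving
points). Let `ρ : P → GL_r(K)` be continuous. There is a set `M` of at most `3 (r ^ 2 - 1)` moving
points such that the generator attached to two moving points which are not both in `M` commutes
with all generators; for a fixed index `i` and a moving point `j` outside of `M` the generator
`A i j` commutes with `A k l` if `j` is not `k` or `l`, and `k` is moving or equal to `i`, or all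
of Artin's relations hold; and, if `K` is algebraically closed and the generators act
irreducibly, then `ρ` is scalar on the closed normal subgroup generated by the `A i j` such that
`i` and `j` are moving and not both in `M`. -/
theorem result {K : Type*} [Field K] [TopologicalSpace K] [T2Space K] {P : Type*} [Group P]
    [TopologicalSpace P] [IsTopologicalGroup P] {m n r : ℕ} (hr : 0 < r)
    (A : Fin n → Fin n → P) (hA : SurfaceBraid m A) (ρ : P →* GL (Fin r) K)
    (hρ : Continuous ρ) :
    ∃ M : Finset (Fin n), (∀ v ∈ M, m ≤ v.val) ∧ M.card ≤ 3 * (r ^ 2 - 1) ∧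
      (∀ i j, m ≤ i.val → i < j → ¬ (i ∈ M ∧ j ∈ M) → ∀ k l, k < l → m ≤ l.val →
        Commute (ρ (A i j)) (ρ (A k l))) ∧
      (∀ i j, i.val < m → m ≤ j.val → j ∉ M → ∀ k l, k < l → m ≤ l.val → j ≠ k → j ≠ l →
        (m ≤ k.val ∨ k = i ∨ PureBraid m A) → Commute (ρ (A i j)) (ρ (A k l))) ∧
      (IsAlgClosed K →
        (∀ W : Submodule K (Fin r → K), (∀ i j, i < j → m ≤ j.val → ∀ w ∈ W,
          (ρ (A i j) : Matrix (Fin r) (Fin r) K) *ᵥ w ∈ W) → W = ⊥ ∨ W = ⊤) →
        ∀ g ∈ (Subgroup.normalClosure {x | ∃ i j, m ≤ i.val ∧ i < j ∧ ¬ (i ∈ M ∧ j ∈ M) ∧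
          x = A i j}).topologicalClosure,
          ∃ c : K, (ρ g : Matrix (Fin r) (Fin r) K) = c • (1 : Matrix (Fin r) (Fin r) K)) := by
  have hne : Nonempty (Fin r) := ⟨⟨0, hr⟩⟩
  have hfin : Module.finrank K (Matrix (Fin r) (Fin r) K) = r ^ 2 := by
    rw [Module.finrank_matrix, Module.finrank_self, Fintype.card_fin, mul_one, pow_two]
  obtain ⟨M, h1, h2, h3, h4⟩ := (hA.fl.map ρ).support K
  rw [hfin] at h2
  refine ⟨M, h1, h2, h3, fun i j hi hj hjM k l hkl hl hjk hjl hk => ?_, fun _ hirr => ?_⟩
  · refine h4 i j hi hj hjM k l hkl hl hjk hjl ?_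
    rcases hk with hk | hk | hk
    · exact Or.inl hk
    · exact Or.inr (Or.inl hk)
    · exact Or.inr (Or.inr (hk.fl.map ρ))
  refine scal_closure hρ ?_
  rintro x ⟨i, j, a1, a2, a3, rfl⟩
  refine schur (S := {g | ∃ k l, k < l ∧ m ≤ l.val ∧ g = ρ (A k l)}) ?_ ?_
  · intro W hW
    exact hirr W fun k l hkl hl w hw => hW _ ⟨k, l, hkl, hl, rfl⟩ w hw
  · rintro g ⟨k, l, hkl, hl, rfl⟩
    exact h3 i j a1 a2 a3 k l hkl hl

end Pool.Agent.Results.MP_80bee4_ag.BoundedSupport
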