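import Pool.Agent.Lib.Art.Act
import Pool.Agent.Lib.Art.ChainMain

/-!
# Sheaves of low rank, and sheaves with small local monodromy, on configuration spaces of the line

In the application `P` is the fundamental group of the space of squarefree polynomials of degree
`m + 1` over an algebraic closure of a finite field (sheaves which are tame on the space of ordered
configurations), a quotient of the profinite completion of the braid group on `m + 1` strands, and
`K` is the algebraic closure of the field of `ℓ`-adic numbers.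
-/

open Matrix Pool.Agent.Art

namespace Pool.Agent.Results.MP_80bee4_ag.BraidLowRank

/-- Artin's relations between the standard generators of the braid group on `m + 1` strands. -/
structure Braid {P : Type*} [Group P] {m : ℕ} (t : Fin m → P) : Prop where
  comm : ∀ x y : Fin m, (x : ℕ) + 2 ≤ y → t x * t y = t y * t x
  braid : ∀ x y : Fin m, (x : ℕ) + 1 = y → t x * t y * t x = t y * t x * t y

open Classical in
/-- The matrix with entries `1 + q` on the diagonal, `1` below it, `q` above it, and `0` otherwise. -/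
noncomputable def burau {K : Type*} [Field K] {m : ℕ} (q : K) : Matrix (Fin m) (Fin m) K :=
  Matrix.of fun x y =>
    if x = y then 1 + q else if (x : ℕ) = y + 1 then 1 else if (y : ℕ) = x + 1 then q else 0

theorem burau_self {K : Type*} [Field K] {m : ℕ} (q : K) (x : Fin m) : burau q x x = 1 + q := by
  classical
  show (if x = x then 1 + q else if (x : ℕ) = x + 1 then 1 else if (x : ℕ) = x + 1 then q else 0) =
    1 + q
  rw [if_pos rfl]

theorem burau_low {K : Type*} [Field K] {m : ℕ} (q : K) {x y : Fin m} (h : (x : ℕ) = y + 1) :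
    burau q x y = 1 := by
  classical
  show (if x = y then 1 + q else if (x : ℕ) = y + 1 then 1 else if (y : ℕ) = x + 1 then q else 0) =
    1
  rw [if_neg (fun e => by rw [e] at h; omega), if_pos h]

theorem burau_up {K : Type*} [Field K] {m : ℕ} (q : K) {x y : Fin m} (h : (y : ℕ) = x + 1) :
    burau q x y = q := by
  classical
  show (if x = y then 1 + q else if (x : ℕ) = y + 1 then 1 else if (y : ℕ) = x + 1 then q else 0) =
    q
  rw [if_neg (fun e => by rw [e] at h; omega), if_neg (by omega), if_pos h]

theorem burau_far {K : Type*} [Field K] {m : ℕ} (q : K) {x y : Fin m}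
    (h : (x : ℕ) + 2 ≤ y ∨ (y : ℕ) + 2 ≤ x) : burau q x y = 0 := by
  classical
  show (if x = y then 1 + q else if (x : ℕ) = y + 1 then 1 else if (y : ℕ) = x + 1 then q else 0) =
    0
  rw [if_neg (fun e => by rw [e] at h; omega), if_neg (by omega), if_neg (by omega)]

/-! ### Integer vertices -/

variable {m : ℕ}

/-- the generator of an integer `x`, `1 ≤ x ≤ m` -/
def idx (hm : 0 < m) (x : ℤ) : Fin m := ⟨min (x - 1).toNat (m - 1), by omega⟩

theorem val_idx (hm : 0 < m) {x : ℤ} (hx : x ∈ Set.Icc (1 : ℤ) m) :
    ((idx hm x).val : ℤ) = x - 1 := by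
  obtain ⟨h1, h2⟩ := hx
  show ((min (x - 1).toNat (m - 1) : ℕ) : ℤ) = x - 1
  omega

theorem idx_val (hm : 0 < m) (x : Fin m) : idx hm ((x.val : ℤ) + 1) = x := by
  apply Fin.ext
  have := x.isLt
  show min ((x.val : ℤ) + 1 - 1).toNat (m - 1) = x.val
  omega

theorem val_mem (x : Fin m) : ((x.val : ℤ) + 1) ∈ Set.Icc (1 : ℤ) m := by
  have := x.isLt
  exact ⟨by omega, by omega⟩

theorem Braid.sys {P : Type*} [Group P] {t : Fin m → P} (ht : Braid t) (hm : 0 < m) {M : Type*}
    [Monoid M] (f : P →* M) : ASys hum (Set.Icc (1 : ℤ) m) (fun x => f (t (idx hm x))) where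
  comm := by
    intro x hx y hy h
    have h1 := val_idx hm hx
    have h2 := val_idx hm hy
    have hx1 := hx.1
    have hy1 := hy.1
    show f (t (idx hm x)) * f (t (idx hm y)) = f (t (idx hm y)) * f (t (idx hm x))
    have h3 : ((idx hm x : Fin m) : ℕ) + 2 ≤ (idx hm y : Fin m) ∨
        ((idx hm y : Fin m) : ℕ) + 2 ≤ (idx hm x : Fin m) := by
      unfold Far hum at h
      omega
    rcases h3 with h3 | h3
    · rw [← map_mul, ht.comm _ _ h3, map_mul]
    · rw [← map_mul, ← ht.comm _ _ h3, map_mul]
  braid := by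
    intro x hx y hy h
    have h1 := val_idx hm hx
    have h2 := val_idx hm hy
    have hx1 := hx.1
    have hy1 := hy.1
    show f (t (idx hm x)) * f (t (idx hm y)) * f (t (idx hm x)) =
      f (t (idx hm y)) * f (t (idx hm x)) * f (t (idx hm y))
    have h3 : ((idx hm x : Fin m) : ℕ) + 1 = (idx hm y : Fin m) ∨
        ((idx hm y : Fin m) : ℕ) + 1 = (idx hm x : Fin m) := by
      unfold hum at h
      omega
    rcases h3 with h3 | h3
    · rw [← map_mul, ← map_mul, ht.braid _ _ h3, map_mul, map_mul]
    · rw [← map_mul, ← map_mul, ← ht.braid _ _ h3, map_mul, map_mul]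

/-- Let `m ≥ 11` and let `P` be a topological group, topologically generated by elements
`t 0, …, t (m - 1)` which satisfy Artin's relations for the braid group on `m + 1` strands. Let
`ρ : P → GL_r(K)`, `r > 0`, be a continuous irreducible representation over an algebraically closed
Hausdorff topological field. Suppose that the rank `r` is small,
`r < (s (s - 1) / 2) (L - 1) ^ 2` for some `s ≥ 2` and `L ≥ 5` with `s (L + 1) ≤ m + 1`, or that,
without a bound for `r`, the rank of `ρ (t x) - ν` is less than `m - 7` for some `x` and some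
scalar `ν`.

Then `r = 1`, or `m - 1 ≤ r` and `ρ` is a twist of the irreducible quotient of a Burau
representation: there are `μ` and `q` in `K`, not zero, and nonzero vectors `u x` which span `K ^ r`,
such that `ρ (t x) (u y) = μ (u y - M x y • u x)` for all `x` and `y`, where `M = burau q`, and the
linear relations between the vectors `u x` are the elements of the kernel of `M`, or `r = m + 1` and
`ρ` is a twist of the standard representation of Tong, Yang and Ma: there are `μ` and `τ` in `K`,
not zero, `τ ≠ 1`, and a basis `v 0, …, v m` of `K ^ r` such that `ρ (t x)` maps `v x` to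
`μ • v (x + 1)`, `v (x + 1)` to `μ τ • v x`, and the other `v y` to `μ • v y`. -/
theorem result {K : Type*} [Field K] [IsAlgClosed K] [TopologicalSpace K] [IsTopologicalRing K]
    [T2Space K] {P : Type*} [Group P] [TopologicalSpace P] [IsTopologicalGroup P] {m r : ℕ}
    (hm : 11 ≤ m) (t : Fin m → P) (ht : Braid t)
    (hgen : (Subgroup.closure (Set.range t)).topologicalClosure = ⊤)
    (ρ : P →* GL (Fin r) K) (hρ : Continuous ρ) (hr0 : 0 < r)
    (hirr : ∀ W : Submodule K (Fin r → K),
      (∀ g, ∀ w ∈ W, (ρ g : Matrix (Fin r) (Fin r) K) *ᵥ w ∈ W) → W = ⊥ ∨ W = ⊤)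
    (hr : (∃ s L : ℕ, 2 ≤ s ∧ 5 ≤ L ∧ s * (L + 1) ≤ m + 1 ∧
        r < s * (s - 1) / 2 * (L - 1) ^ 2) ∨
      ∃ x, ∃ ν : K, ((ρ (t x) : Matrix (Fin r) (Fin r) K) - ν • 1).rank < m - 7) :
    r = 1 ∨
    (m ≤ r + 1 ∧ ∃ (μ q : K) (u : Fin m → (Fin r → K)), μ ≠ 0 ∧ q ≠ 0 ∧ (∀ x, u x ≠ 0) ∧
      Submodule.span K (Set.range u) = ⊤ ∧
      (∀ x y, (ρ (t x) : Matrix (Fin r) (Fin r) K) *ᵥ u y = μ • (u y - burau q x y • u x)) ∧
      (∀ f : Fin m → K, ∑ x, f x • u x = 0 ↔ burau q *ᵥ f = 0) ∧
      r = (burau (m := m) q).rank) ∨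
    (r = m + 1 ∧ ∃ (μ τ : K) (v : Fin (m + 1) → (Fin r → K)), μ ≠ 0 ∧ τ ≠ 0 ∧ τ ≠ 1 ∧
      LinearIndependent K v ∧ Submodule.span K (Set.range v) = ⊤ ∧
      ∀ x : Fin m,
        (ρ (t x) : Matrix (Fin r) (Fin r) K) *ᵥ v x.castSucc = μ • v x.succ ∧
        (ρ (t x) : Matrix (Fin r) (Fin r) K) *ᵥ v x.succ = (μ * τ) • v x.castSucc ∧
        ∀ y, y ≠ x.castSucc → y ≠ x.succ →
          (ρ (t x) : Matrix (Fin r) (Fin r) K) *ᵥ v y = μ • v y) := by
  classical
  have hm0 : 0 < m := by omega
  set T : ℤ → Module.End K (Fin r → K) := fun x => act ρ (t (idx hm0 x)) with hT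
  have hS : ASys hum (Set.Icc (1 : ℤ) m) T := ht.sys hm0 (act ρ)
  have hinj : ∀ x ∈ Set.Icc (1 : ℤ) m, Function.Injective (T x) := fun x _ => act_inj ρ _
  have hTx : ∀ x : Fin m, T ((x.val : ℤ) + 1) = act ρ (t x) := by
    intro x
    show act ρ (t (idx hm0 ((x.val : ℤ) + 1))) = act ρ (t x)
    rw [idx_val]
  have hirr2 : ∀ W : Submodule K (Fin r → K), (∀ x, ∀ w ∈ W, act ρ (t x) w ∈ W) →
      W = ⊥ ∨ W = ⊤ := by
    intro W hW
    refine hirr W (stable_all ρ hρ hgen W ?_)
    rintro _ ⟨x, rfl⟩ w hw
    exact hW x w hw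
  have hirr3 : ∀ W : Submodule K (Fin r → K),
      (∀ x ∈ Set.Icc (1 : ℤ) m, ∀ w ∈ W, T x w ∈ W) → W = ⊥ ∨ W = ⊤ := by
    intro W hW
    refine hirr2 W fun x w hw => ?_
    have h := hW ((x.val : ℤ) + 1) (val_mem x) w hw
    rwa [hTx x] at h
  have hfin : Module.finrank K (Fin r → K) = r := by
    rw [Module.finrank_fintype_fun_eq_card, Fintype.card_fin]
  have hnt : Nontrivial (Fin r → K) := by
    rw [← Module.finrank_pos_iff (R := K), hfin]
    exact hr0
  -- all generators act in the same way, or not
  by_cases hflat : ∀ x ∈ Set.Icc (1 : ℤ) m, ∀ y ∈ Set.Icc (1 : ℤ) m, T x = T y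
  · left
    have h1m : (1 : ℤ) ∈ Set.Icc (1 : ℤ) m := ⟨le_rfl, by omega⟩
    have hall : ∀ x, act ρ (t x) = T 1 := by
      intro x
      rw [← hTx]
      exact hflat _ (val_mem x) _ h1m
    obtain ⟨k, hk⟩ := Module.End.exists_eigenvalue (T 1)
    obtain ⟨v, hv⟩ := hk.exists_hasEigenvector
    have hv1 : T 1 v = k • v := hv.apply_eq_smul
    have htop : (K ∙ v) = ⊤ := by
      rcases hirr2 (K ∙ v) (fun x w hw => by
        obtain ⟨a, rfl⟩ := Submodule.mem_span_singleton.1 hw
        rw [map_smul, hall x, hv1]
        exact Submodule.smul_mem _ _ (Submodule.smul_mem _ _ (Submodule.mem_span_singleton_self v)))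
        with h | h
      · exact absurd (Submodule.span_singleton_eq_bot.1 h) hv.2
      · exact h
    have h1 := finrank_span_singleton (K := K) hv.2
    rw [htop, finrank_top, hfin] at h1
    exact h1
  right
  push Not at hflat
  -- (Q)
  have hQ : QQ T m := by
    rcases hr with ⟨s, L, hs, hL, hsL, hr⟩ | ⟨x, ν, hr⟩
    · exact qq_of_dim_chain hs hL hsL hinj hS (by rw [hfin]; exact hr)
    · have hrk : (Module.finrank K (LinearMap.range
          (T ((x.val : ℤ) + 1) - ν • (1 : Module.End K _))) : ℤ) < m - 7 := by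
        rw [hTx]
        have e : act ρ (t x) - ν • (1 : Module.End K (Fin r → K)) =
            Matrix.mulVecLin ((ρ (t x) : Matrix (Fin r) (Fin r) K) - ν • 1) := by
          refine LinearMap.ext fun w => ?_
          show (ρ (t x) : Matrix (Fin r) (Fin r) K) *ᵥ w - ν • w =
            ((ρ (t x) : Matrix (Fin r) (Fin r) K) - ν • 1) *ᵥ w
          rw [Matrix.sub_mulVec, Matrix.smul_mulVec, Matrix.one_mulVec]
        rw [e]
        have h1 : Module.finrank K (LinearMap.range
            (Matrix.mulVecLin ((ρ (t x) : Matrix (Fin r) (Fin r) K) - ν • 1))) < m - 7 := hr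
        omega
      exact qq_of_rank_chain (by omega) hinj hS (val_mem x) hrk
  rcases chain_main (m := m) (by omega) hinj hS hirr3 hflat hQ with
    ⟨μ, q, u, hμ, hq, hdim, hu, hspan, h1, h2, h3, h4⟩ |
    ⟨μ, τ, v, hμ, hτ, hτ1, hrel, hfix, hli, hspan⟩
  · left
    set U : Fin m → (Fin r → K) := fun x => u ((x : ℕ) + 1) with hU
    have hform : ∀ x y : Fin m, act ρ (t x) (U y) = μ • (U y - burau q x y • U x) := by
      intro x y
      have hx := val_mem x
      have hy := val_mem y
      rw [← hTx]
      show T ((x.val : ℤ) + 1) (u ((y : ℕ) + 1)) =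
        μ • (u ((y : ℕ) + 1) - burau q x y • u ((x : ℕ) + 1))
      by_cases c1 : x = y
      · subst c1
        rw [burau_self, h1 _ hx.1 hx.2]
      · by_cases c2 : (x : ℕ) = y + 1
        · have e : ((x : ℕ) : ℤ) = (y : ℕ) + 1 := by exact_mod_cast c2
          rw [burau_low q c2, one_smul, e, h2 _ hy.1 (by have := hx.2; omega)]
        · by_cases c3 : (y : ℕ) = x + 1
          · have e : ((y : ℕ) : ℤ) = (x : ℕ) + 1 := by exact_mod_cast c3
            rw [burau_up q c3, e, h3 _ hx.1 (by have := hy.2; omega)]
          · have hne : (x : ℕ) ≠ y := fun h => c1 (Fin.ext h)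
            rw [burau_far q (by omega), zero_smul, sub_zero,
              h4 _ _ hx.1 hx.2 hy.1 hy.2 (by omega)]
    have hspanU : Submodule.span K (Set.range U) = ⊤ := hspan
    have hUne : ∀ x, U x ≠ 0 := fun x => hu _ (val_mem x).1 (val_mem x).2
    have hsum : ∀ (f : Fin m → K) (x : Fin m),
        act ρ (t x) (∑ y, f y • U y) = μ • (∑ y, f y • U y) - (μ * (burau q *ᵥ f) x) • U x := by
      intro f x
      rw [map_sum, Finset.smul_sum, Matrix.mulVec, dotProduct, Finset.mul_sum, Finset.sum_smul,
        ← Finset.sum_sub_distrib]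
      refine Finset.sum_congr rfl fun y _ => ?_
      rw [map_smul, hform, smul_comm (f y) μ, smul_sub (f y), smul_sub μ, smul_smul (f y),
        smul_smul μ (f y * burau q x y)]
      congr 2
      ring
    have hker : ∀ f : Fin m → K, ∑ x, f x • U x = 0 ↔ burau q *ᵥ f = 0 := by
      intro f
      constructor
      · intro h
        funext x
        have h5 := hsum f x
        rw [h, map_zero, smul_zero, zero_sub] at h5
        have h6 := neg_eq_zero.1 h5.symm
        rcases smul_eq_zero.1 h6 with h7 | h7
        · rcases mul_eq_zero.1 h7 with h8 | h8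
          · exact absurd h8 hμ
          · exact h8
        · exact absurd h7 (hUne x)
      · intro h
        set w := ∑ x, f x • U x with hw
        have hfixw : ∀ x, act ρ (t x) w = μ • w := by
          intro x
          have h5 := hsum f x
          rw [h, Pi.zero_apply, mul_zero, zero_smul, sub_zero] at h5
          exact h5
        let W : Submodule K (Fin r → K) :=
          { carrier := {v | ∀ x, act ρ (t x) v = μ • v}
            add_mem' := fun {a b} ha hb x => by rw [map_add, ha x, hb x, smul_add]
            zero_mem' := fun x => by rw [map_zero, smul_zero]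
            smul_mem' := fun a v hv x => by rw [map_smul, hv x, smul_comm] }
        rcases hirr2 W (fun x v hv => by
          rw [hv x]
          exact W.smul_mem μ hv) with h5 | h5
        · have h6 : w ∈ W := hfixw
          rw [h5] at h6
          exact (Submodule.mem_bot K).1 h6
        · exfalso
          let x0 : Fin m := ⟨0, by omega⟩
          let x1 : Fin m := ⟨1, by omega⟩
          have h6 : U x0 ∈ W := by rw [h5]; exact Submodule.mem_top
          have h7 := hform x1 x0
          rw [h6 x1, burau_low q (x := x1) (y := x0) rfl, one_smul] at h7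
          have h8 : U x0 = U x0 - U x1 := smul_right_injective _ hμ h7
          have h9 : U x1 = 0 := by
            have h10 : U x1 = U x0 - (U x0 - U x1) := by abel
            rw [h10, ← h8, sub_self]
          exact hUne x1 h9
    -- the rank
    have hrank : r = (burau (m := m) q).rank := by
      let F : (Fin m → K) →ₗ[K] (Fin r → K) := Fintype.linearCombination K U
      have hF : ∀ f, F f = ∑ x, f x • U x := fun f => rfl
      have hFr : LinearMap.range F = ⊤ := by
        rw [Fintype.range_linearCombination, hspanU]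
      have hFk : LinearMap.ker F = LinearMap.ker (burau (m := m) q).mulVecLin := by
        ext f
        rw [LinearMap.mem_ker, LinearMap.mem_ker, hF, hker f]
        rfl
      have h5 := LinearMap.finrank_range_add_finrank_ker F
      have h6 := LinearMap.finrank_range_add_finrank_ker (burau (m := m) q).mulVecLin
      rw [hFr, finrank_top, hfin, hFk] at h5
      have h7 : (burau (m := m) q).rank =
        Module.finrank K (LinearMap.range (burau (m := m) q).mulVecLin) := rfl
      omega
    rw [hfin] at hdim
    exact ⟨by omega, μ, q, U, hμ, hq, hUne, hspanU, fun x y => hform x y, hker, hrank⟩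
  · right
    have hcard : r = m + 1 := by
      have h5 := Module.finrank_eq_card_basis (Module.Basis.mk hli (by rw [hspan]))
      rw [hfin, Fintype.card_fin] at h5
      exact h5
    refine ⟨hcard, μ, τ, fun i => v (i : ℕ), hμ, hτ, hτ1, hli, hspan, ?_⟩
    intro x
    have hx := val_mem x
    have r1 := hrel ((x : ℕ) + 1) hx.1 hx.2
    rw [add_sub_cancel_right, hTx] at r1
    refine ⟨?_, ?_, ?_⟩
    · show act ρ (t x) (v ((x.castSucc : ℕ) : ℤ)) = μ • v ((x.succ : ℕ) : ℤ)
      have e : ((x.succ : ℕ) : ℤ) = (x : ℕ) + 1 := by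
        rw [Fin.val_succ]
        push_cast
        ring
      rw [e, Fin.val_castSucc]
      exact r1.1
    · show act ρ (t x) (v ((x.succ : ℕ) : ℤ)) = (μ * τ) • v ((x.castSucc : ℕ) : ℤ)
      have e : ((x.succ : ℕ) : ℤ) = (x : ℕ) + 1 := by
        rw [Fin.val_succ]
        push_cast
        ring
      rw [e, Fin.val_castSucc]
      exact r1.2
    · intro y hy1 hy2
      have h5 : (y : ℕ) ≠ x := fun h => hy1 (Fin.ext h)
      have h6 : (y : ℕ) ≠ x + 1 := fun h => hy2 (Fin.ext (by rw [Fin.val_succ]; exact h))
      have h7 := y.2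
      show act ρ (t x) (v ((y : ℕ) : ℤ)) = μ • v ((y : ℕ) : ℤ)
      rw [← hTx]
      exact hfix _ _ (by omega) (by omega) hx.1 hx.2 (by omega) (by omega)

end Pool.Agent.Results.MP_80bee4_ag.BraidLowRank
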