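import Pool.Agent.Lib.Art.Act
import Pool.Agent.Lib.Art.ChainMain
import Pool.Agent.Lib.PCF.Scal
import Pool.Agent.Lib.PCG.GB1
import Pool.Agent.Lib.PCG.GB2
import Pool.Agent.Lib.PCG.GT1
import Pool.Agent.Lib.PCG.GT3

/-!
# Sheaves of low rank, and sheaves with small local monodromy, on configuration spaces of curves

In the application `P` is the fundamental group of the space of `m + 1` unordered points on a smooth
connected curve (affine or projective, of any genus), over an algebraic closure of a finite field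
(sheaves which are tame on the space of ordered configurations), and `K` is the algebraic closure of
the field of `ℓ`-adic numbers.
-/

open Matrix Pool.Agent.Art Pool.Agent.PCF Pool.Agent.PCG

namespace Pool.Agent.Results.MP_80bee4_ag.CurvesLowRank

/-- Relations between the standard generators of the braid group on `m + 1` strands of a surface:
`t x` exchanges the points `x` and `x + 1`, and `a j` moves the point `0` along the loop `j`. The
loops `i < j` with `H i j` are the two loops of a handle; the other loops belong to other handles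
and to the punctures. -/
structure Surface {P : Type*} [Group P] {m k : ℕ} (t : Fin m → P) (a : Fin k → P)
    (H : Fin k → Fin k → Prop) : Prop where
  comm : ∀ x y : Fin m, (x : ℕ) + 2 ≤ y → t x * t y = t y * t x
  braid : ∀ x y : Fin m, (x : ℕ) + 1 = y → t x * t y * t x = t y * t x * t y
  far : ∀ (j : Fin k) (x : Fin m), 1 ≤ (x : ℕ) → a j * t x = t x * a j
  own : ∀ (j : Fin k) (x : Fin m), (x : ℕ) = 0 → a j * t x * a j * t x = t x * a j * t x * a j
  cross : ∀ (i j : Fin k) (x : Fin m), i < j → ¬ H i j → (x : ℕ) = 0 →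
    a i * (t x * a j * (t x)⁻¹) = t x * a j * (t x)⁻¹ * a i
  handle : ∀ (i j : Fin k) (x : Fin m), i < j → H i j → (x : ℕ) = 0 →
    a i * (t x * a j * (t x)⁻¹) = t x * a j * t x * a i

open Classical in
/-- The matrix with entries `1 + q` on the diagonal, `1` below it, `q` above it, and `0` otherwise. -/
noncomputable def burau {K : Type*} [Field K] {m : ℕ} (q : K) : Matrix (Fin m) (Fin m) K :=
  Matrix.of fun x y =>
    if x = y then 1 + q else if (x : ℕ) = y + 1 then 1 else if (y : ℕ) = x + 1 then q else 0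

open Classical in
/-- The scalar `z` for the two loops of a handle, and `1` otherwise. -/
noncomputable def onH {K : Type*} [Field K] {k : ℕ} (H : Fin k → Fin k → Prop) (z : K)
    (i j : Fin k) : K :=
  if H i j then z else 1

/-- No subspace except `0` and everything is invariant under the matrices. -/
def Irred {K : Type*} [Field K] {n : ℕ} {ι : Type*} (α : ι → Matrix (Fin n) (Fin n) K) : Prop :=
  ∀ W : Submodule K (Fin n → K), (∀ j, ∀ v ∈ W, α j *ᵥ v ∈ W) → W = ⊥ ∨ W = ⊤

/-- `T x` and `A j` are the matrices of the transform, with parameters `μ`, `q`, of the invertible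
matrices `D j`, `E j` of size `n`: these satisfy the displayed commutation relations, the columns of
the `u x` and `X j` span, and `T x`, `A j` act on them by the displayed formulas. -/
structure Transform {K : Type*} [Field K] {m k r n : ℕ} (T : Fin m → Matrix (Fin r) (Fin r) K)
    (A : Fin k → Matrix (Fin r) (Fin r) K) (μ q : K) (H : Fin k → Fin k → Prop)
    (D E : Fin k → Matrix (Fin n) (Fin n) K) (u : Fin m → Matrix (Fin r) (Fin n) K)
    (X : Fin k → Matrix (Fin r) (Fin n) K) : Prop where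
  de0 : ∀ j, D j * E j = E j * D j
  dd : ∀ i j, i < j → D i * D j = onH H (μ ^ 2) i j • (D j * D i)
  de : ∀ i j, i < j → D i * E j = onH H (μ ^ 2 * q) i j • (E j * D i)
  ed : ∀ i j, i < j → E i * D j = onH H (μ ^ 2 * q) i j • (D j * E i)
  inj : ∀ x v, u x *ᵥ v = 0 → v = 0
  span : ∀ z : Fin r → K, ∃ (f : Fin m → (Fin n → K)) (g : Fin k → (Fin n → K)),
    z = ∑ x, u x *ᵥ f x + ∑ j, X j *ᵥ g j
  tu : ∀ x y, T x * u y = μ • (u y - burau q x y • u x)
  tX : ∀ x j, T x * X j = μ • (X j - if (x : ℕ) = 0 then u x * (E j - q • D j) else 0)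
  au : ∀ j x, A j * u x = u x * D j + if (x : ℕ) = 0 then X j else 0
  aeq : ∀ j, A j * X j = X j * E j
  alt : ∀ i j, i < j → A i * X j = X j * (onH H (μ ^ 2 * q) i j • D i) + X i * (E j - q • D j)
  agt : ∀ i j, i < j → onH H (μ ^ 2) i j • (A j * X i) = X i * D j +
    X j * ((q⁻¹ * onH H (μ ^ 2 * q) i j) • E i - onH H (μ ^ 2) i j • D i)

/-- `T x` and `A j` are the matrices of the representation which is induced from the invertible
matrices `α j`, `β j` of size `n`: these satisfy the displayed commutation relations, the columns of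
the `v y` form a basis, and `T x`, `A j` act on them by the displayed formulas. -/
structure Induced {K : Type*} [Field K] {m k r n : ℕ} (T : Fin m → Matrix (Fin r) (Fin r) K)
    (A : Fin k → Matrix (Fin r) (Fin r) K) (μ τ : K) (H : Fin k → Fin k → Prop)
    (α β : Fin k → Matrix (Fin n) (Fin n) K) (v : Fin (m + 1) → Matrix (Fin r) (Fin n) K) :
    Prop where
  own : ∀ j, α j * β j = β j * α j
  ab : ∀ i j, i < j → α i * β j = onH H (μ ^ 2 * τ) i j • (β j * α i)
  ba : ∀ i j, i < j → β i * α j = onH H (μ ^ 2 * τ) i j • (α j * β i)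
  bb : ∀ i j, i < j → β i * β j = onH H (μ ^ 2) i j • (β j * β i)
  indep : ∀ f : Fin (m + 1) → (Fin n → K), ∑ y, v y *ᵥ f y = 0 → f = 0
  span : ∀ z : Fin r → K, ∃ f : Fin (m + 1) → (Fin n → K), z = ∑ y, v y *ᵥ f y
  tv : ∀ x : Fin m, T x * v x.castSucc = μ • v x.succ ∧
    T x * v x.succ = (μ * τ) • v x.castSucc ∧
    ∀ y, y ≠ x.castSucc → y ≠ x.succ → T x * v y = μ • v y
  av : ∀ j, A j * v 0 = v 0 * α j ∧ ∀ y, y ≠ 0 → A j * v y = v y * β j

private theorem burau_self {K : Type*} [Field K] {m : ℕ} (q : K) (x : Fin m) :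
    burau q x x = 1 + q := by
  classical
  show (if x = x then 1 + q else if (x : ℕ) = x + 1 then 1 else if (x : ℕ) = x + 1 then q else 0) =
    1 + q
  rw [if_pos rfl]

private theorem burau_low {K : Type*} [Field K] {m : ℕ} (q : K) {x y : Fin m}
    (h : (x : ℕ) = y + 1) : burau q x y = 1 := by
  classical
  show (if x = y then 1 + q else if (x : ℕ) = y + 1 then 1 else if (y : ℕ) = x + 1 then q else 0) =
    1
  rw [if_neg (fun e => by rw [e] at h; omega), if_pos h]

private theorem burau_up {K : Type*} [Field K] {m : ℕ} (q : K) {x y : Fin m}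
    (h : (y : ℕ) = x + 1) : burau q x y = q := by
  classical
  show (if x = y then 1 + q else if (x : ℕ) = y + 1 then 1 else if (y : ℕ) = x + 1 then q else 0) =
    q
  rw [if_neg (fun e => by rw [e] at h; omega), if_neg (by omega), if_pos h]

private theorem burau_far {K : Type*} [Field K] {m : ℕ} (q : K) {x y : Fin m}
    (h : (x : ℕ) + 2 ≤ y ∨ (y : ℕ) + 2 ≤ x) : burau q x y = 0 := by
  classical
  show (if x = y then 1 + q else if (x : ℕ) = y + 1 then 1 else if (y : ℕ) = x + 1 then q else 0) =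
    0
  rw [if_neg (fun e => by rw [e] at h; omega), if_neg (by omega), if_neg (by omega)]

/-! ### The generators with integer indices -/

section idx

variable {m : ℕ}

/-- the generator of an integer `x`, `1 ≤ x ≤ m` -/
private def idx (hm : 0 < m) (x : ℤ) : Fin m := ⟨min (x - 1).toNat (m - 1), by omega⟩

private theorem val_idx (hm : 0 < m) {x : ℤ} (hx : x ∈ Set.Icc (1 : ℤ) m) :
    ((idx hm x).val : ℤ) = x - 1 := by
  obtain ⟨h1, h2⟩ := hx
  show ((min (x - 1).toNat (m - 1) : ℕ) : ℤ) = x - 1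
  omega

private theorem idx_val (hm : 0 < m) (x : Fin m) : idx hm ((x.val : ℤ) + 1) = x := by
  apply Fin.ext
  have := x.isLt
  show min ((x.val : ℤ) + 1 - 1).toNat (m - 1) = x.val
  omega

private theorem val_mem (x : Fin m) : ((x.val : ℤ) + 1) ∈ Set.Icc (1 : ℤ) m := by
  have := x.isLt
  exact ⟨by omega, by omega⟩

private theorem Surface.sys {P : Type*} [Group P] {k : ℕ} {t : Fin m → P} {a : Fin k → P}
    {H : Fin k → Fin k → Prop} (ht : Surface t a H) (hm : 0 < m) {M : Type*} [Monoid M] (f : P →* M) :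
    ASys hum (Set.Icc (1 : ℤ) m) (fun x => f (t (idx hm x))) where
  comm := by
    intro x hx y hy h
    have h1 := val_idx hm hx
    have h2 := val_idx hm hy
    have hx1 := hx.1
    have hy1 := hy.1
    show f (t (idx hm x)) * f (t (idx hm y)) = f (t (idx hm y)) * f (t (idx hm x))
    have h3 : ((idx hm x : Fin m) : ℕ) + 2 ≤ (idx hm y : Fin m) ∨
        ((idx hm y : Fin m) : ℕ) + 2 ≤ (idx hm x : Fin m) := by
      unfold Far hum at h
      omega
    rcases h3 with h3 | h3
    · rw [← map_mul, ht.comm _ _ h3, map_mul]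
    · rw [← map_mul, ← ht.comm _ _ h3, map_mul]
  braid := by
    intro x hx y hy h
    have h1 := val_idx hm hx
    have h2 := val_idx hm hy
    have hx1 := hx.1
    have hy1 := hy.1
    show f (t (idx hm x)) * f (t (idx hm y)) * f (t (idx hm x)) =
      f (t (idx hm y)) * f (t (idx hm x)) * f (t (idx hm y))
    have h3 : ((idx hm x : Fin m) : ℕ) + 1 = (idx hm y : Fin m) ∨
        ((idx hm y : Fin m) : ℕ) + 1 = (idx hm x : Fin m) := by
      unfold hum at h
      omega
    rcases h3 with h3 | h3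
    · rw [← map_mul, ← map_mul, ht.braid _ _ h3, map_mul, map_mul]
    · rw [← map_mul, ← map_mul, ← ht.braid _ _ h3, map_mul, map_mul]

end idx

/-! ### Matrices of linear maps on a subspace -/

section mats

variable {K : Type*} [Field K] {r : ℕ} {U : Submodule K (Fin r → K)} {n : ℕ}
  (φ : (Fin n → K) ≃ₗ[K] U)

/-- the matrix of a linear map on `U` -/
private noncomputable def mU (f : U →ₗ[K] (Fin r → K)) : Matrix (Fin r) (Fin n) K :=
  LinearMap.toMatrix' (f ∘ₗ φ.toLinearMap)

private noncomputable def mE (f : Module.End K U) : Matrix (Fin n) (Fin n) K :=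
  LinearMap.toMatrix' (φ.symm.toLinearMap ∘ₗ f ∘ₗ φ.toLinearMap)

private theorem mU_apply (f : U →ₗ[K] (Fin r → K)) (v : Fin n → K) : mU φ f *ᵥ v = f (φ v) := by
  rw [mU, LinearMap.toMatrix'_mulVec]
  rfl

private theorem mE_apply (f : Module.End K U) (v : Fin n → K) :
    φ (mE φ f *ᵥ v) = f (φ v) := by
  rw [mE, LinearMap.toMatrix'_mulVec]
  show φ (φ.symm (f (φ v))) = f (φ v)
  rw [LinearEquiv.apply_symm_apply]

private theorem mat_ext {a b : ℕ} {M N : Matrix (Fin a) (Fin b) K}
    (h : ∀ v : Fin b → K, M *ᵥ v = N *ᵥ v) : M = N :=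
  Matrix.toLin'.injective (LinearMap.ext fun v => by
    rw [Matrix.toLin'_apply, Matrix.toLin'_apply, h v])

private theorem mE_unit {f : Module.End K U} (hf : Function.Injective f) : IsUnit (mE φ f) := by
  rw [← Matrix.mulVec_injective_iff_isUnit]
  intro v v' h
  have h1 : φ (mE φ f *ᵥ v) = φ (mE φ f *ᵥ v') := by
    show φ ((mE φ f).mulVec v) = φ ((mE φ f).mulVec v')
    rw [h]
  rw [mE_apply, mE_apply] at h1
  exact φ.injective (hf h1)

private theorem mE_irr2 {k : ℕ} {al be : Fin k → Module.End K U}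
    (h : ∀ W : Submodule K U, (∀ j, ∀ v ∈ W, al j v ∈ W) → (∀ j, ∀ v ∈ W, be j v ∈ W) →
      W = ⊥ ∨ W = ⊤) :
    Irred (Sum.elim (fun j => mE φ (al j)) (fun j => mE φ (be j))) := by
  intro W hW
  have hm : ∀ (f : Module.End K U), (∀ v ∈ W, mE φ f *ᵥ v ∈ W) →
      ∀ v ∈ W.map φ.toLinearMap, f v ∈ W.map φ.toLinearMap := by
    rintro f hf _ ⟨v, hv, rfl⟩
    refine ⟨mE φ f *ᵥ v, hf v hv, ?_⟩
    show φ (mE φ f *ᵥ v) = f (φ v)
    exact mE_apply φ f v
  rcases h (W.map φ.toLinearMap) (fun j => hm (al j) (hW (Sum.inl j)))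
    (fun j => hm (be j) (hW (Sum.inr j))) with h1 | h1
  · left
    rw [Submodule.eq_bot_iff]
    intro v hv
    have h2 : φ v ∈ W.map φ.toLinearMap := ⟨v, hv, rfl⟩
    rw [h1, Submodule.mem_bot] at h2
    exact φ.map_eq_zero_iff.1 h2
  · right
    rw [eq_top_iff]
    intro v _
    have h2 : φ v ∈ W.map φ.toLinearMap := by
      rw [h1]
      exact Submodule.mem_top
    obtain ⟨v', hv', h3⟩ := h2
    have h4 : v' = v := φ.injective h3
    rwa [← h4]

private theorem mE_comm {f g : Module.End K U} {c : K}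
    (h : ∀ v, f (g v) = c • g (f v)) : mE φ f * mE φ g = c • (mE φ g * mE φ f) := by
  refine mat_ext fun v => ?_
  rw [Matrix.smul_mulVec, ← Matrix.mulVec_mulVec, ← Matrix.mulVec_mulVec]
  apply φ.injective
  rw [map_smul, mE_apply, mE_apply, mE_apply, mE_apply, h]

end mats

/-- the determinants -/
private theorem det_comm {K : Type*} [Field K] {n : ℕ} {M N : Matrix (Fin n) (Fin n) K}
    (hM : IsUnit M) (hN : IsUnit N) {c : K} (h : M * N = c • (N * M)) : c ^ n = 1 := by
  have h1 := congrArg Matrix.det h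
  rw [Matrix.det_smul, Fintype.card_fin, Matrix.det_mul, Matrix.det_mul, mul_comm N.det] at h1
  have hM' : M.det ≠ 0 := ((Matrix.isUnit_iff_isUnit_det M).1 hM).ne_zero
  have hN' : N.det ≠ 0 := ((Matrix.isUnit_iff_isUnit_det N).1 hN).ne_zero
  have h2 : c ^ n * (M.det * N.det) = 1 * (M.det * N.det) := by rw [one_mul, ← h1]
  exact mul_right_cancel₀ (mul_ne_zero hM' hN') h2

private theorem onH_pos {K : Type*} [Field K] {k : ℕ} {H : Fin k → Fin k → Prop} {z : K}
    {i j : Fin k} (h : H i j) : onH H z i j = z := by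
  unfold onH
  rw [if_pos h]

private theorem onH_neg {K : Type*} [Field K] {k : ℕ} {H : Fin k → Fin k → Prop} {z : K}
    {i j : Fin k} (h : ¬ H i j) : onH H z i j = 1 := by
  unfold onH
  rw [if_neg h]

/-- Schur for matrices -/
private theorem schur_mat {K : Type*} [Field K] [IsAlgClosed K] {n : ℕ} (hn : 0 < n)
    {I : Type*} {S : I → Matrix (Fin n) (Fin n) K} (hirr : Irred S)
    {M : Matrix (Fin n) (Fin n) K} (hM : ∀ i, M * S i = S i * M) : ∃ c : K, M = c • 1 := by
  have : Nonempty (Fin n) := ⟨⟨0, hn⟩⟩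
  have : Nontrivial (Fin n → K) := Function.nontrivial
  obtain ⟨c, hc⟩ := Module.End.exists_eigenvalue (Matrix.mulVecLin M)
  refine ⟨c, ?_⟩
  rcases hirr (Module.End.eigenspace (Matrix.mulVecLin M) c) (by
    intro i w hw
    rw [Module.End.mem_eigenspace_iff] at hw ⊢
    have hw' : M *ᵥ w = c • w := hw
    show M *ᵥ (S i *ᵥ w) = c • (S i *ᵥ w)
    rw [Matrix.mulVec_mulVec, hM, ← Matrix.mulVec_mulVec, hw', Matrix.mulVec_smul]) with h | h
  · exact absurd h hc
  · refine mat_ext fun w => ?_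
    have h1 : w ∈ Module.End.eigenspace (Matrix.mulVecLin M) c := by
      rw [h]
      exact Submodule.mem_top
    have h2 : M *ᵥ w = c • w := Module.End.mem_eigenspace_iff.1 h1
    rw [h2, Matrix.smul_mulVec, Matrix.one_mulVec]

/-! ### The transform -/

section conv

variable {K : Type*} [Field K] {P : Type*} [Group P] {m k r : ℕ}

/-- from `GBOut` to matrices -/
private theorem conv_B [IsAlgClosed K] (hm : 11 ≤ m) {t : Fin m → P} {a : Fin k → P}
    {ρ : P →* GL (Fin r) K} {μ : K} {s : ℤ → Module.End K (Fin r → K)}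
    (hs : ∀ x : Fin m, ∀ v, (ρ (t x) : Matrix (Fin r) (Fin r) K) *ᵥ v = μ • s ((x : ℕ) + 1) v)
    {U : Submodule K (Fin r → K)} (hU : U ≠ ⊥) {q : K} {ξ η : Fin k → Fin k → K}
    {H : Fin k → Fin k → Prop} (hc : ∀ i j, i < j → ξ i j + η i j = onH H (μ ^ 2) i j)
    (hw : ∀ i j, i < j → η i j + q * ξ i j = onH H (μ ^ 2 * q) i j)
    {D E : Fin k → Module.End K U} {u : ℤ → (U →ₗ[K] (Fin r → K))}
    {w : Fin k → (U →ₗ[K] (Fin r → K))}
    (hO : GBOut (m : ℤ) s (fun j => act ρ (a j)) ξ η q D E u w) :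
    ∃ (n : ℕ) (D E : Fin k → Matrix (Fin n) (Fin n) K)
      (u : Fin m → Matrix (Fin r) (Fin n) K) (X : Fin k → Matrix (Fin r) (Fin n) K),
      0 < n ∧ n * (m - 1) ≤ r ∧ r ≤ n * (m + k) ∧ (∀ j, IsUnit (D j)) ∧ (∀ j, IsUnit (E j)) ∧
      Irred (Sum.elim D E) ∧
      Transform (fun x => (ρ (t x) : Matrix (Fin r) (Fin r) K))
        (fun j => (ρ (a j) : Matrix (Fin r) (Fin r) K)) μ q H D E u X := by
  classical
  obtain ⟨n, hn⟩ : ∃ n, n = Module.finrank K U := ⟨_, rfl⟩
  have hn0 : 0 < n := by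
    rw [hn]
    have : Nontrivial U := (Submodule.nontrivial_iff_ne_bot).2 hU
    exact Module.finrank_pos
  subst hn
  obtain ⟨φ⟩ : Nonempty ((Fin (Module.finrank K U) → K) ≃ₗ[K] U) :=
    ⟨(Module.finBasis K U).equivFun.symm⟩
  obtain ⟨n, hn⟩ : ∃ n, n = Module.finrank K U := ⟨_, rfl⟩
  rw [← hn] at φ hn0 
  have hA : ∀ (g : P) (F : U →ₗ[K] (Fin r → K)) (v : Fin n → K),
      ((ρ g : Matrix (Fin r) (Fin r) K) * mU φ F) *ᵥ v =
        (ρ g : Matrix (Fin r) (Fin r) K) *ᵥ (F (φ v)) := by
    intro g F v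
    rw [← Matrix.mulVec_mulVec, mU_apply]
  have hmU : ∀ (F : U →ₗ[K] (Fin r → K)) (v : Fin n → K), mU φ F *ᵥ v = F (φ v) := mU_apply φ
  have hal : ∀ (F : U →ₗ[K] (Fin r → K)) (G : Module.End K U) (v : Fin n → K),
      (mU φ F * mE φ G) *ᵥ v = F (G (φ v)) := by
    intro F G v
    rw [← Matrix.mulVec_mulVec, mU_apply, mE_apply]
  have hax : ∀ j z, act ρ (a j) z = (ρ (a j) : Matrix (Fin r) (Fin r) K) *ᵥ z := fun j z => rfl
  -- the two sums of maps
  have hfU : Module.finrank K U = n := hn.symm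
  have hfV : Module.finrank K (Fin r → K) = r := by
    rw [Module.finrank_fintype_fun_eq_card, Fintype.card_fin]
  obtain ⟨L1, hL1⟩ : ∃ L1 : (Fin m → U) →ₗ[K] (Fin r → K), ∀ f, L1 f =
      ∑ x : Fin m, u ((x : ℕ) + 1) (f x) := by
    refine ⟨∑ x : Fin m, (u ((x : ℕ) + 1)) ∘ₗ (LinearMap.proj x : (Fin m → U) →ₗ[K] U), ?_⟩
    intro f
    simp only [LinearMap.sum_apply, LinearMap.comp_apply, LinearMap.proj_apply]
  obtain ⟨L2, hL2⟩ : ∃ L2 : (Fin k → U) →ₗ[K] (Fin r → K), ∀ g, L2 g = ∑ j, w j (g j) := by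
    refine ⟨∑ j, (w j) ∘ₗ (LinearMap.proj j : (Fin k → U) →ₗ[K] U), ?_⟩
    intro f
    simp only [LinearMap.sum_apply, LinearMap.comp_apply, LinearMap.proj_apply]
  obtain ⟨L, hL⟩ : ∃ L : (Fin m → U) × (Fin k → U) →ₗ[K] (Fin r → K), ∀ f g, L (f, g) =
      L1 f + L2 g :=
    ⟨L1.comp (LinearMap.fst K _ _) + L2.comp (LinearMap.snd K _ _), fun f g => rfl⟩
  have hLs : Function.Surjective L := by
    rw [← LinearMap.range_eq_top, eq_top_iff, ← hO.span]
    refine sup_le (iSup_le ?_) (iSup_le ?_)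
    · rintro ⟨x, hx⟩ _ ⟨v, rfl⟩
      refine ⟨(Pi.single (idx (by omega) x) v, 0), ?_⟩
      rw [hL, map_zero, add_zero, hL1, Finset.sum_eq_single (idx (by omega) x)]
      · rw [Pi.single_eq_same, val_idx (by omega) hx, sub_add_cancel]
      · intro y _ hy
        rw [Pi.single_eq_of_ne hy, map_zero]
      · intro h
        exact absurd (Finset.mem_univ _) h
    · rintro j _ ⟨v, rfl⟩
      refine ⟨(0, Pi.single j v), ?_⟩
      rw [hL, map_zero, zero_add, hL2, Finset.sum_eq_single j]
      · rw [Pi.single_eq_same]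
      · intro y _ hy
        rw [Pi.single_eq_of_ne hy, map_zero]
      · intro h
        exact absurd (Finset.mem_univ _) h
  have hform : ∀ (x y : Fin m) (v : U), s ((x : ℕ) + 1) (u ((y : ℕ) + 1) v) =
      u ((y : ℕ) + 1) v - burau q x y • u ((x : ℕ) + 1) v := by
    intro x y v
    have hx := val_mem x
    have hy := val_mem y
    by_cases c1 : x = y
    · subst c1
      rw [hO.s1 _ hx.1 hx.2, burau_self]
    · by_cases c2 : (x : ℕ) = y + 1
      · have e : ((x : ℕ) : ℤ) = (y : ℕ) + 1 := by exact_mod_cast c2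
        rw [e, hO.s2 _ hy.1 (by have := hx.2; omega), burau_low q c2, one_smul]
      · by_cases c3 : (y : ℕ) = x + 1
        · have e : ((y : ℕ) : ℤ) = (x : ℕ) + 1 := by exact_mod_cast c3
          rw [e, hO.s3 _ hx.1 (by have := hy.2; omega), burau_up q c3]
        · have hne : (x : ℕ) ≠ y := fun h => c1 (Fin.ext h)
          rw [hO.s4 _ _ hx.1 hx.2 hy.1 hy.2 (by omega), burau_far q (by omega), zero_smul,
            sub_zero]
  have hrow : ∀ f : Fin m → U, L1 f = 0 → ∀ x, ∑ y, burau q x y • f y = 0 := by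
    intro f hf x
    have hx := val_mem x
    apply hO.uinj _ hx.1 hx.2
    have h1 := congrArg (fun z => s ((x : ℕ) + 1) z) hf
    have h2 : s ((x : ℕ) + 1) (L1 f) = L1 f - u ((x : ℕ) + 1) (∑ y, burau q x y • f y) := by
      rw [hL1, map_sum, map_sum, ← Finset.sum_sub_distrib]
      refine Finset.sum_congr rfl fun y _ => ?_
      rw [hform, map_smul]
    have h3 : s ((x : ℕ) + 1) (L1 f) = 0 := by rw [hf, map_zero]
    rw [h2, hf, zero_sub, neg_eq_zero] at h3
    rw [h3, map_zero]
  have hker : ∀ f : Fin m → U, L1 f = 0 → f ⟨0, by omega⟩ = 0 → f = 0 := by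
    intro f hf h0
    have hall : ∀ i : ℕ, ∀ hi : i < m, f ⟨i, hi⟩ = 0 := by
      intro i
      induction i using Nat.strong_induction_on with
      | _ i ih =>
        intro hi
        rcases Nat.eq_zero_or_pos i with h | h
        · subst h
          exact h0
        · have h1 := hrow f hf ⟨i - 1, by omega⟩
          rw [Finset.sum_eq_single (⟨i, hi⟩ : Fin m)] at h1
          · rw [burau_up q (x := ⟨i - 1, by omega⟩) (y := ⟨i, hi⟩) (by
              show i = i - 1 + 1
              omega)] at h1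
            exact (smul_eq_zero.1 h1).resolve_left hO.q0
          · intro y _ hy
            by_cases hyi : (y : ℕ) < i
            · have h2 := ih y hyi y.2
              have h3 : f y = 0 := h2
              rw [h3, smul_zero]
            · have hne : (y : ℕ) ≠ i := fun h => hy (Fin.ext h)
              rw [burau_far q (x := ⟨i - 1, by omega⟩) (y := y) (by
                show i - 1 + 2 ≤ (y : ℕ) ∨ (y : ℕ) + 2 ≤ i - 1
                omega), zero_smul]
          · intro h
            exact absurd (Finset.mem_univ _) h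
    exact funext fun i => hall i i.2
  refine ⟨n, fun j => mE φ (D j), fun j => mE φ (E j), fun x => mU φ (u ((x : ℕ) + 1)),
    fun j => mU φ (w j), hn0, ?_, ?_, fun j => mE_unit φ (hO.dinj j),
    fun j => mE_unit φ (hO.einj j), mE_irr2 φ hO.irr, ?_⟩
  · -- the lower bound
    have h1 := LinearMap.finrank_range_add_finrank_ker L1
    have h2 : Module.finrank K (LinearMap.range L1) ≤ r := by
      have := Submodule.finrank_le (LinearMap.range L1)
      rwa [hfV] at this
    have h3 : Module.finrank K (LinearMap.ker L1) ≤ n := by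
      rw [← hfU]
      refine LinearMap.finrank_le_finrank_of_injective
        (f := (LinearMap.proj (⟨0, by omega⟩ : Fin m) : (Fin m → U) →ₗ[K] U) ∘ₗ
          (LinearMap.ker L1).subtype) ?_
      rw [injective_iff_map_eq_zero]
      intro f hf
      exact Subtype.ext (hker f.1 (LinearMap.mem_ker.1 f.2) hf)
    have h4 : Module.finrank K (Fin m → U) = m * n := by
      rw [Module.finrank_pi_fintype, Finset.sum_const, Finset.card_univ, Fintype.card_fin, hfU,
        smul_eq_mul]
    rw [h4] at h1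
    have h5 : n * (m - 1) + n = m * n := by
      obtain ⟨m', rfl⟩ : ∃ m', m = m' + 1 := ⟨m - 1, by omega⟩
      rw [Nat.add_sub_cancel]
      ring
    omega
  · -- the upper bound
    have h1 := LinearMap.finrank_range_le L
    rw [LinearMap.range_eq_top.2 hLs, finrank_top, hfV, Module.finrank_prod,
      Module.finrank_pi_fintype, Module.finrank_pi_fintype, Finset.sum_const, Finset.sum_const,
      Finset.card_univ, Finset.card_univ, Fintype.card_fin, Fintype.card_fin, hfU, smul_eq_mul,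
      smul_eq_mul] at h1
    calc r ≤ m * n + k * n := h1
      _ = n * (m + k) := by ring
  have hone : ∀ {f g : Module.End K U}, (∀ v, f (g v) = g (f v)) →
      mE φ f * mE φ g = mE φ g * mE φ f := by
    intro f g h
    have h1 := mE_comm φ (f := f) (g := g) (c := 1) (fun v => by rw [one_smul]; exact h v)
    rwa [one_smul] at h1
  refine ⟨fun j => hone (hO.de0 j), ?_, ?_, ?_, ?_, ?_, ?_, ?_, ?_, ?_, ?_, ?_⟩
  · intro i j hij
    exact mE_comm φ (fun v => by rw [hO.dd i j hij v, hc i j hij])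
  · intro i j hij
    exact mE_comm φ (fun v => by rw [hO.de i j hij v, hw i j hij])
  · intro i j hij
    exact mE_comm φ (fun v => by rw [hO.ed i j hij v, hw i j hij])
  · intro x v h
    rw [hmU] at h
    have hx := val_mem x
    have h1 : φ v = 0 := hO.uinj _ hx.1 hx.2 (by rw [h, map_zero])
    exact φ.map_eq_zero_iff.1 h1
  · intro z
    obtain ⟨⟨f, g⟩, hfg⟩ := hLs z
    refine ⟨fun x => φ.symm (f x), fun j => φ.symm (g j), ?_⟩
    rw [← hfg, hL, hL1, hL2]
    congr 1
    · refine Finset.sum_congr rfl fun x _ => ?_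
      rw [hmU, LinearEquiv.apply_symm_apply]
    · refine Finset.sum_congr rfl fun j _ => ?_
      rw [hmU, LinearEquiv.apply_symm_apply]
  · intro x y
    have hx := val_mem x
    have hy := val_mem y
    refine mat_ext fun v => ?_
    rw [hA, hs, Matrix.smul_mulVec, Matrix.sub_mulVec, Matrix.smul_mulVec, hmU, hmU]
    congr 1
    by_cases c1 : x = y
    · subst c1
      rw [hO.s1 _ hx.1 hx.2, burau_self]
    · by_cases c2 : (x : ℕ) = y + 1
      · have e : ((x : ℕ) : ℤ) = (y : ℕ) + 1 := by exact_mod_cast c2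
        rw [e, hO.s2 _ hy.1 (by have := hx.2; omega), burau_low q c2, one_smul]
      · by_cases c3 : (y : ℕ) = x + 1
        · have e : ((y : ℕ) : ℤ) = (x : ℕ) + 1 := by exact_mod_cast c3
          rw [e, hO.s3 _ hx.1 (by have := hy.2; omega), burau_up q c3]
        · have hne : (x : ℕ) ≠ y := fun h => c1 (Fin.ext h)
          rw [hO.s4 _ _ hx.1 hx.2 hy.1 hy.2 (by omega), burau_far q (by omega), zero_smul,
            sub_zero]
  · intro x j
    have hx := val_mem x
    refine mat_ext fun v => ?_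
    rw [hA, hs, Matrix.smul_mulVec, Matrix.sub_mulVec, hmU]
    congr 1
    by_cases c1 : (x : ℕ) = 0
    · rw [if_pos c1, c1, Matrix.mul_sub, Matrix.mul_smul, Matrix.sub_mulVec, Matrix.smul_mulVec,
        hal, hal]
      have := hO.x1 j (φ v)
      rw [map_sub, map_smul] at this
      simpa using this
    · rw [if_neg c1, Matrix.zero_mulVec, sub_zero]
      exact hO.x2 j _ (by omega) hx.2 (φ v)
  · intro j x
    have hx := val_mem x
    refine mat_ext fun v => ?_
    rw [hA, Matrix.add_mulVec, hal]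
    by_cases c1 : (x : ℕ) = 0
    · rw [if_pos c1, c1, hmU]
      have := hO.a1 j (φ v)
      rw [hax, add_comm] at this
      simpa using this
    · rw [if_neg c1, Matrix.zero_mulVec, add_zero]
      exact hO.a2 j _ (by omega) hx.2 (φ v)
  · intro j
    refine mat_ext fun v => ?_
    rw [hA, hal]
    exact hO.aeq j (φ v)
  · intro i j hij
    refine mat_ext fun v => ?_
    rw [hA, Matrix.add_mulVec, Matrix.mul_smul, Matrix.smul_mulVec, Matrix.mul_sub,
      Matrix.mul_smul, Matrix.sub_mulVec, Matrix.smul_mulVec, hal, hal, hal, ← hw i j hij]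
    have h1 := hO.alt i j hij (φ v)
    rw [map_sub, map_smul] at h1
    exact h1
  · intro i j hij
    refine mat_ext fun v => ?_
    rw [Matrix.smul_mulVec, hA, Matrix.add_mulVec, Matrix.mul_sub, Matrix.mul_smul,
      Matrix.mul_smul, Matrix.sub_mulVec, Matrix.smul_mulVec, Matrix.smul_mulVec, hal, hal, hal,
      ← hw i j hij, ← hc i j hij]
    have h1 := hO.agt i j hij (φ v)
    rw [map_sub, map_smul, map_smul] at h1
    exact h1

/-- from `GTOut` to matrices -/
private theorem conv_T [IsAlgClosed K] {t : Fin m → P} {a : Fin k → P}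
    {ρ : P →* GL (Fin r) K} {μ : K} {s : ℤ → Module.End K (Fin r → K)}
    (hs : ∀ x : Fin m, ∀ v, (ρ (t x) : Matrix (Fin r) (Fin r) K) *ᵥ v = μ • s ((x : ℕ) + 1) v)
    {U : Submodule K (Fin r → K)} (hU : U ≠ ⊥) {τ : K} {ξ η : Fin k → Fin k → K}
    {H : Fin k → Fin k → Prop} (hc : ∀ i j, i < j → ξ i j + η i j = onH H (μ ^ 2) i j)
    (hw : ∀ i j, i < j → ξ i j * τ + η i j = onH H (μ ^ 2 * τ) i j)
    {al be : Fin k → Module.End K U} {v : ℕ → (U →ₗ[K] (Fin r → K))}
    (hO : GTOut m s (fun j => act ρ (a j)) ξ η τ al be v) :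
    ∃ (n : ℕ) (α β : Fin k → Matrix (Fin n) (Fin n) K)
      (v : Fin (m + 1) → Matrix (Fin r) (Fin n) K),
      0 < n ∧ r = n * (m + 1) ∧ (∀ j, IsUnit (α j)) ∧ (∀ j, IsUnit (β j)) ∧
      Irred (Sum.elim α β) ∧
      Induced (fun x => (ρ (t x) : Matrix (Fin r) (Fin r) K))
        (fun j => (ρ (a j) : Matrix (Fin r) (Fin r) K)) μ τ H α β v := by
  classical
  obtain ⟨n, hn⟩ : ∃ n, n = Module.finrank K U := ⟨_, rfl⟩
  have hn0 : 0 < n := by
    rw [hn]
    have : Nontrivial U := (Submodule.nontrivial_iff_ne_bot).2 hU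
    exact Module.finrank_pos
  subst hn
  obtain ⟨φ⟩ : Nonempty ((Fin (Module.finrank K U) → K) ≃ₗ[K] U) :=
    ⟨(Module.finBasis K U).equivFun.symm⟩
  obtain ⟨n, hn⟩ : ∃ n, n = Module.finrank K U := ⟨_, rfl⟩
  rw [← hn] at φ hn0
  have hA : ∀ (g : P) (F : U →ₗ[K] (Fin r → K)) (w : Fin n → K),
      ((ρ g : Matrix (Fin r) (Fin r) K) * mU φ F) *ᵥ w =
        (ρ g : Matrix (Fin r) (Fin r) K) *ᵥ (F (φ w)) := by
    intro g F w
    rw [← Matrix.mulVec_mulVec, mU_apply]
  have hmU : ∀ (F : U →ₗ[K] (Fin r → K)) (w : Fin n → K), mU φ F *ᵥ w = F (φ w) := mU_apply φ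
  have hal : ∀ (F : U →ₗ[K] (Fin r → K)) (G : Module.End K U) (w : Fin n → K),
      (mU φ F * mE φ G) *ᵥ w = F (G (φ w)) := by
    intro F G w
    rw [← Matrix.mulVec_mulVec, mU_apply, mE_apply]
  have hax : ∀ j z, act ρ (a j) z = (ρ (a j) : Matrix (Fin r) (Fin r) K) *ᵥ z := fun j z => rfl
  -- the sum of the maps
  let L : (Fin (m + 1) → U) →ₗ[K] (Fin r → K) :=
    ∑ y : Fin (m + 1), (v y) ∘ₗ (LinearMap.proj y : (Fin (m + 1) → U) →ₗ[K] U)
  have hL : ∀ f, L f = ∑ y : Fin (m + 1), v y (f y) := by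
    intro f
    simp only [L, LinearMap.sum_apply, LinearMap.comp_apply, LinearMap.proj_apply]
  have hLi : Function.Injective L := by
    rw [injective_iff_map_eq_zero]
    intro f hf
    rw [hL] at hf
    exact funext fun y => hO.indep f hf y
  have hLs : Function.Surjective L := by
    rw [← LinearMap.range_eq_top, eq_top_iff, ← hO.span]
    refine iSup_le fun y => ?_
    rintro _ ⟨w, rfl⟩
    refine ⟨Pi.single y w, ?_⟩
    rw [hL, Finset.sum_eq_single y, Pi.single_eq_same]
    · intro z _ hz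
      rw [Pi.single_eq_of_ne hz, map_zero]
    · intro h
      exact absurd (Finset.mem_univ _) h
  refine ⟨n, fun j => mE φ (al j), fun j => mE φ (be j), fun y => mU φ (v y), hn0, ?_,
    fun j => mE_unit φ (hO.alinj j), fun j => mE_unit φ (hO.beinj j), mE_irr2 φ hO.irr, ?_⟩
  · -- the rank
    have h1 := (LinearEquiv.ofBijective L ⟨hLi, hLs⟩).finrank_eq
    rw [Module.finrank_pi_fintype, Finset.sum_const, Finset.card_univ, Fintype.card_fin,
      Module.finrank_fintype_fun_eq_card, Fintype.card_fin, ← hn, smul_eq_mul] at h1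
    rw [← h1, Nat.mul_comm]
  have hone : ∀ {f g : Module.End K U}, (∀ v, f (g v) = g (f v)) →
      mE φ f * mE φ g = mE φ g * mE φ f := by
    intro f g h
    have h1 := mE_comm φ (f := f) (g := g) (c := 1) (fun v => by rw [one_smul]; exact h v)
    rwa [one_smul] at h1
  refine ⟨fun j => hone (hO.own j), ?_, ?_, ?_, ?_, ?_, ?_, ?_⟩
  · intro i j hij
    exact mE_comm φ (fun v => by rw [hO.ab i j hij v, hw i j hij])
  · intro i j hij
    exact mE_comm φ (fun v => by rw [hO.ba i j hij v, hw i j hij])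
  · intro i j hij
    exact mE_comm φ (fun v => by rw [hO.bb i j hij v, hc i j hij])
  · intro f hf
    have h1 : ∀ y, f y = 0 := by
      intro y
      have h2 : L (fun y => φ (f y)) = 0 := by
        rw [hL, ← hf]
        exact Finset.sum_congr rfl fun y _ => (hmU _ _).symm
      rw [hL] at h2
      exact φ.map_eq_zero_iff.1 (hO.indep _ h2 y)
    exact funext h1
  · intro z
    obtain ⟨g, hg⟩ := hLs z
    refine ⟨fun y => φ.symm (g y), ?_⟩
    rw [← hg, hL]
    refine Finset.sum_congr rfl fun y _ => ?_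
    rw [hmU, LinearEquiv.apply_symm_apply]
  · intro x
    have hx := x.isLt
    have hs' : ∀ z, s (((x : ℕ) : ℤ) + 1) z = s (((x : ℕ) + 1 : ℕ) : ℤ) z := by
      intro z
      rw [Nat.cast_add, Nat.cast_one]
    refine ⟨?_, ?_, ?_⟩
    · refine mat_ext fun w => ?_
      rw [hA, hs, hs', Matrix.smul_mulVec, hmU]
      congr 1
      exact hO.s1 ((x : ℕ) + 1) (by omega) (by omega) (φ w)
    · refine mat_ext fun w => ?_
      rw [hA, hs, hs', Matrix.smul_mulVec, hmU, mul_smul]
      congr 1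
      exact hO.s2 ((x : ℕ) + 1) (by omega) (by omega) (φ w)
    · intro y h1 h2
      have h1' : (y : ℕ) ≠ x := fun h => h1 (Fin.ext h)
      have h2' : (y : ℕ) ≠ x + 1 := fun h => h2 (Fin.ext h)
      have hy := y.isLt
      refine mat_ext fun w => ?_
      rw [hA, hs, hs', Matrix.smul_mulVec, hmU]
      congr 1
      exact hO.s3 ((x : ℕ) + 1) y (by omega) (by omega) (by omega) h2' (by omega) (φ w)
  · intro j
    refine ⟨?_, ?_⟩
    · refine mat_ext fun w => ?_
      rw [hA, hal, ← hax]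
      exact hO.a0 j (φ w)
    · intro y hy
      have hy' : (y : ℕ) ≠ 0 := fun h => hy (Fin.ext h)
      have hy2 := y.isLt
      refine mat_ext fun w => ?_
      rw [hA, hal, ← hax]
      exact hO.a1 j y (by omega) (by omega) (φ w)

/-- an irreducible system without matrices -/
private theorem irr_empty {n : ℕ} {D E : Fin 0 → Matrix (Fin n) (Fin n) K}
    (hn : 0 < n) (hα : Irred (Sum.elim D E)) : n = 1 := by
  have : Nonempty (Fin n) := ⟨⟨0, hn⟩⟩
  have : Nontrivial (Fin n → K) := Function.nontrivial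
  obtain ⟨v, hv⟩ := exists_ne (0 : Fin n → K)
  rcases hα (Submodule.span K {v})
      (fun j => Sum.elim (fun i => i.elim0) (fun i => i.elim0) j) with h | h
  · exact absurd (Submodule.span_singleton_eq_bot.1 h) hv
  · have h1 := finrank_span_singleton (K := K) hv
    rw [h, finrank_top, Module.finrank_fintype_fun_eq_card, Fintype.card_fin] at h1
    exact h1

/-- no punctures -/
private theorem conv_k {μ q : K} (hμ : μ ≠ 0) (hm : 11 ≤ m) {n : ℕ} {t : Fin m → P}
    {ρ : P →* GL (Fin r) K} {H : Fin 0 → Fin 0 → Prop} {D E : Fin 0 → Matrix (Fin n) (Fin n) K}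
    {u : Fin m → Matrix (Fin r) (Fin n) K}
    {w : Fin 0 → Matrix (Fin r) (Fin n) K} {A : Fin 0 → Matrix (Fin r) (Fin r) K}
    (hn : 0 < n) (hα : Irred (Sum.elim D E))
    (hirr : ∀ W : Submodule K (Fin r → K),
      (∀ x, ∀ w ∈ W, (ρ (t x) : Matrix (Fin r) (Fin r) K) *ᵥ w ∈ W) → W = ⊥ ∨ W = ⊤)
    (hT : Transform (fun x => (ρ (t x) : Matrix (Fin r) (Fin r) K)) A μ q H D E u w) :
    n = 1 ∧ r = (burau (m := m) q).rank := by
  classical
  have hn1 : n = 1 := irr_empty hn hα
  subst hn1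
  refine ⟨rfl, ?_⟩
  have hfin : Module.finrank K (Fin r → K) = r := by
    rw [Module.finrank_fintype_fun_eq_card, Fintype.card_fin]
  obtain ⟨U, hU⟩ : ∃ U : Fin m → (Fin r → K), U = fun x => u x *ᵥ (fun _ => (1 : K)) := ⟨_, rfl⟩
  have hUv : ∀ x (v : Fin 1 → K), u x *ᵥ v = v 0 • U x := by
    intro x v
    have e : v = v 0 • (fun _ => (1 : K)) := by
      funext i
      rw [Fin.eq_zero i]
      show v 0 = v 0 * 1
      rw [mul_one]
    rw [hU]
    show u x *ᵥ v = v 0 • (u x *ᵥ (fun _ => (1 : K)))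
    rw [← Matrix.mulVec_smul, ← e]
  have hUne : ∀ x, U x ≠ 0 := by
    intro x h
    have h1 : u x *ᵥ (fun _ => (1 : K)) = 0 := by
      rw [hUv, h, smul_zero]
    have h2 := congrFun (hT.inj x _ h1) 0
    exact one_ne_zero h2
  have hform : ∀ x y, (ρ (t x) : Matrix (Fin r) (Fin r) K) *ᵥ U y =
      μ • (U y - burau q x y • U x) := by
    intro x y
    have h1 := congrArg (fun M => M *ᵥ (fun _ => (1 : K))) (hT.tu x y)
    rw [hU]
    show (ρ (t x) : Matrix (Fin r) (Fin r) K) *ᵥ (u y *ᵥ (fun _ => (1 : K))) =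
      μ • (u y *ᵥ (fun _ => (1 : K)) - burau q x y • (u x *ᵥ (fun _ => (1 : K))))
    rw [Matrix.mulVec_mulVec, ← Matrix.smul_mulVec, ← Matrix.sub_mulVec, ← Matrix.smul_mulVec]
    exact h1
  have hspanU : ∀ z : Fin r → K, ∃ f : Fin m → K, ∑ x, f x • U x = z := by
    intro z
    obtain ⟨f, g, h⟩ := hT.span z
    refine ⟨fun x => f x 0, ?_⟩
    rw [h, Fin.sum_univ_zero (f := fun j => w j *ᵥ g j), add_zero]
    exact Finset.sum_congr rfl fun x _ => (hUv x (f x)).symm
  have hsum : ∀ (f : Fin m → K) (x : Fin m),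
      (ρ (t x) : Matrix (Fin r) (Fin r) K) *ᵥ (∑ y, f y • U y) =
        μ • (∑ y, f y • U y) - (μ * (burau q *ᵥ f) x) • U x := by
    intro f x
    rw [Matrix.mulVec_sum, Finset.smul_sum]
    show _ = _ - (μ * ∑ y, burau q x y * f y) • U x
    rw [Finset.mul_sum, Finset.sum_smul, ← Finset.sum_sub_distrib]
    refine Finset.sum_congr rfl fun y _ => ?_
    rw [Matrix.mulVec_smul, hform, smul_comm (f y) μ, smul_sub (f y), smul_sub μ,
      smul_smul (f y), smul_smul μ (f y * burau q x y)]
    congr 2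
    ring
  have hker : ∀ f : Fin m → K, ∑ x, f x • U x = 0 ↔ burau q *ᵥ f = 0 := by
    intro f
    constructor
    · intro h
      funext x
      have h5 := hsum f x
      rw [h, Matrix.mulVec_zero, smul_zero, zero_sub] at h5
      have h6 := neg_eq_zero.1 h5.symm
      rcases smul_eq_zero.1 h6 with h7 | h7
      · rcases mul_eq_zero.1 h7 with h8 | h8
        · exact absurd h8 hμ
        · exact h8
      · exact absurd h7 (hUne x)
    · intro h
      let W : Submodule K (Fin r → K) :=
        { carrier := {v | ∀ x, (ρ (t x) : Matrix (Fin r) (Fin r) K) *ᵥ v = μ • v}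
          add_mem' := fun {a b} ha hb x => by rw [Matrix.mulVec_add, ha x, hb x, smul_add]
          zero_mem' := fun x => by rw [Matrix.mulVec_zero, smul_zero]
          smul_mem' := fun a v hv x => by rw [Matrix.mulVec_smul, hv x, smul_comm] }
      rcases hirr W (fun x v hv => by
        rw [hv x]
        exact W.smul_mem μ hv) with h5 | h5
      · have h6 : (∑ x, f x • U x) ∈ W := by
          intro x
          have h5 := hsum f x
          rw [h, Pi.zero_apply, mul_zero, zero_smul, sub_zero] at h5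
          exact h5
        rw [h5] at h6
        exact (Submodule.mem_bot K).1 h6
      · exfalso
        let x0 : Fin m := ⟨0, by omega⟩
        let x1 : Fin m := ⟨1, by omega⟩
        have h6 : U x0 ∈ W := by rw [h5]; exact Submodule.mem_top
        have h7 := hform x1 x0
        rw [h6 x1, burau_low q (x := x1) (y := x0) rfl, one_smul] at h7
        have h8 : U x0 = U x0 - U x1 := smul_right_injective _ hμ h7
        have h9 : U x1 = 0 := by
          have h10 : U x1 = U x0 - (U x0 - U x1) := by abel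
          rw [h10, ← h8, sub_self]
        exact hUne x1 h9
  -- the rank
  let F : (Fin m → K) →ₗ[K] (Fin r → K) := Fintype.linearCombination K U
  have hF : ∀ f, F f = ∑ x, f x • U x := fun f => rfl
  have hFr : LinearMap.range F = ⊤ := by
    rw [LinearMap.range_eq_top]
    exact hspanU
  have hFk : LinearMap.ker F = LinearMap.ker (burau (m := m) q).mulVecLin := by
    ext f
    rw [LinearMap.mem_ker, LinearMap.mem_ker, hF, hker f]
    rfl
  have h5 := LinearMap.finrank_range_add_finrank_ker F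
  have h6 := LinearMap.finrank_range_add_finrank_ker (burau (m := m) q).mulVecLin
  rw [hFr, finrank_top, hfin, hFk] at h5
  have h7 : (burau (m := m) q).rank =
    Module.finrank K (LinearMap.range (burau (m := m) q).mulVecLin) := rfl
  omega

end conv

/-- Schur -/
private theorem schur_aux {K : Type*} [Field K] [IsAlgClosed K] {r : ℕ} (hr0 : 0 < r)
    {I : Type*} {S : I → Module.End K (Fin r → K)}
    (hirr : ∀ W : Submodule K (Fin r → K), (∀ i, ∀ w ∈ W, S i w ∈ W) → W = ⊥ ∨ W = ⊤)
    {f : Module.End K (Fin r → K)} (hf : ∀ i, f * S i = S i * f) : ∃ c : K, ∀ w, f w = c • w := by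
  have : Nonempty (Fin r) := ⟨⟨0, hr0⟩⟩
  have : Nontrivial (Fin r → K) := Function.nontrivial
  obtain ⟨c, hc⟩ := Module.End.exists_eigenvalue f
  refine ⟨c, ?_⟩
  rcases hirr (Module.End.eigenspace f c) (by
    intro i w hw
    rw [Module.End.mem_eigenspace_iff] at hw ⊢
    rw [← Module.End.mul_apply, hf, Module.End.mul_apply, hw, map_smul]) with h | h
  · exact absurd h hc
  · intro w
    have h1 : w ∈ Module.End.eigenspace f c := by
      rw [h]
      exact Submodule.mem_top
    exact Module.End.mem_eigenspace_iff.1 h1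

/-- all braid generators act in the same way -/
private theorem flat_case {K : Type*} [Field K] [IsAlgClosed K] {P : Type*} [Group P] {m k r : ℕ}
    (hm : 11 ≤ m) {t : Fin m → P} {a : Fin k → P} {H : Fin k → Fin k → Prop}
    (ht : Surface t a H) {ρ : P →* GL (Fin r) K} (hr0 : 0 < r)
    (hirr : ∀ W : Submodule K (Fin r → K), (∀ x, ∀ w ∈ W, act ρ (t x) w ∈ W) →
      (∀ j, ∀ w ∈ W, act ρ (a j) w ∈ W) → W = ⊥ ∨ W = ⊤)
    (hflat : ∀ x y, act ρ (t x) = act ρ (t y)) :
    ∃ μ : K, μ ≠ 0 ∧ (∀ x, (ρ (t x) : Matrix (Fin r) (Fin r) K) = μ • 1) ∧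
      (∀ i j, i < j → (ρ (a i) : Matrix (Fin r) (Fin r) K) * (ρ (a j) : Matrix (Fin r) (Fin r) K) =
        onH H (μ ^ 2) i j • ((ρ (a j) : Matrix (Fin r) (Fin r) K) *
          (ρ (a i) : Matrix (Fin r) (Fin r) K))) ∧
      ((∀ i j, i < j → ¬ H i j) → r = 1) ∧ (∀ i j, i < j → H i j → μ ^ (2 * r) = 1) := by
  have hirr2 : ∀ W : Submodule K (Fin r → K), (∀ i : Fin m ⊕ Fin k, ∀ w ∈ W,
      act ρ (Sum.elim t a i) w ∈ W) → W = ⊥ ∨ W = ⊤ := fun W hW =>
    hirr W (fun x => hW (Sum.inl x)) (fun j => hW (Sum.inr j))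
  have : Nonempty (Fin r) := ⟨⟨0, hr0⟩⟩
  have : Nontrivial (Fin r → K) := Function.nontrivial
  obtain ⟨v0, hv0⟩ := exists_ne (0 : Fin r → K)
  let x0 : Fin m := ⟨0, by omega⟩
  let x1 : Fin m := ⟨1, by omega⟩
  have hTa : ∀ j x, act ρ (a j) * act ρ (t x) = act ρ (t x) * act ρ (a j) := by
    intro j x
    rw [hflat x x1, ← map_mul, ht.far j x1 (le_refl 1), map_mul]
  obtain ⟨c, hc⟩ := schur_aux (f := act ρ (t x0)) hr0 hirr2 (by
    rintro (x | j)
    · show act ρ (t x0) * act ρ (t x) = act ρ (t x) * act ρ (t x0)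
      rw [hflat x x0]
    · exact (hTa j x0).symm)
  have hall : ∀ x, ∀ w, act ρ (t x) w = c • w := fun x w => by
    rw [hflat x x0]
    exact hc w
  have hTc : ∀ x, act ρ (t x) = c • (1 : Module.End K (Fin r → K)) := fun x =>
    LinearMap.ext fun w => hall x w
  have hc0 : c ≠ 0 := by
    rintro rfl
    have h1 := hc v0
    rw [zero_smul] at h1
    exact hv0 (act_inj ρ (t x0) (by rw [h1, map_zero]))
  have hrel : ∀ i j, i < j → act ρ (a i) * act ρ (a j) =
      onH H (c ^ 2) i j • (act ρ (a j) * act ρ (a i)) := by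
    intro i j hij
    have h2 : act ρ (t x0) * act ρ (a j) * act ρ (t x0)⁻¹ = act ρ (a j) := by
      rw [← hTa, mul_assoc, act_mul_inv, mul_one]
    by_cases hH : H i j
    · have h1 := congrArg (act ρ) (ht.handle i j x0 hij hH rfl)
      rw [map_mul, map_mul, map_mul, map_mul, map_mul, map_mul, h2] at h1
      rw [h1, onH_pos hH, hTc, smul_mul_assoc, one_mul, mul_smul_comm, mul_one, smul_smul,
        smul_mul_assoc, pow_two]
    · have h1 := congrArg (act ρ) (ht.cross i j x0 hij hH rfl)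
      rw [map_mul, map_mul, map_mul, map_mul, map_mul, map_mul, h2] at h1
      rw [onH_neg hH, one_smul]
      exact h1
  have hmat : ∀ i j, i < j → (ρ (a i) : Matrix (Fin r) (Fin r) K) *
      (ρ (a j) : Matrix (Fin r) (Fin r) K) = onH H (c ^ 2) i j •
        ((ρ (a j) : Matrix (Fin r) (Fin r) K) * (ρ (a i) : Matrix (Fin r) (Fin r) K)) := by
    intro i j hij
    refine mat_ext fun w => ?_
    have h1 := LinearMap.congr_fun (hrel i j hij) w
    rw [Matrix.smul_mulVec, ← Matrix.mulVec_mulVec, ← Matrix.mulVec_mulVec]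
    exact h1
  refine ⟨c, hc0, fun x => mat_ext fun w => ?_, hmat, fun hno => ?_, fun i j hij hH => ?_⟩
  · have h1 := hall x w
    rw [Matrix.smul_mulVec, Matrix.one_mulVec]
    exact h1
  · have haa : ∀ i j, act ρ (a i) * act ρ (a j) = act ρ (a j) * act ρ (a i) := by
      intro i j
      rcases lt_trichotomy i j with h | h | h
      · rw [hrel i j h, onH_neg (hno i j h), one_smul]
      · rw [h]
      · rw [hrel j i h, onH_neg (hno j i h), one_smul]
    have hac : ∀ j, ∃ d : K, ∀ w, act ρ (a j) w = d • w := by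
      intro j
      refine schur_aux (f := act ρ (a j)) hr0 hirr2 ?_
      rintro (x | i)
      · exact hTa j x
      · exact haa j i
    rcases hirr (Submodule.span K {v0}) (fun x w hw => by
      rw [hall x w]
      exact Submodule.smul_mem _ _ hw) (fun j w hw => by
      obtain ⟨d, hd⟩ := hac j
      rw [hd w]
      exact Submodule.smul_mem _ _ hw) with h | h
    · exact absurd (Submodule.span_singleton_eq_bot.1 h) hv0
    · have h1 := finrank_span_singleton (K := K) hv0
      rw [h, finrank_top, Module.finrank_fintype_fun_eq_card, Fintype.card_fin] at h1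
      exact h1
  · have h1 := hmat i j hij
    rw [onH_pos hH] at h1
    have h2 := det_comm (ρ (a i)).isUnit (ρ (a j)).isUnit h1
    rw [pow_mul]
    exact h2

/-- Let `m ≥ 11` and let `P` be a topological group, topologically generated by elements
`t 0, …, t (m - 1)`, `a 0, …, a (k - 1)` which satisfy the relations between the standard
generators of the braid group on `m + 1` strands of a surface (`Surface`). Let
`ρ : P → GL_r(K)`, `r > 0`, be a continuous irreducible representation over an algebraically closed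
Hausdorff topological field. Suppose that the rank `r` is small,
`r < (s (s - 1) / 2) (L - 1) ^ 2` for some `s ≥ 2` and `L ≥ 5` with `s (L + 1) ≤ m + 1`, or that,
without a bound for `r`, the rank of `ρ (t x) - ν` is less than `m - 7` for some `x` and some
scalar `ν`.

Then the `ρ (t x)` are one scalar `μ` and the `ρ (a j)` commute up to the scalars `1`, `μ ^ 2`
(and `r = 1` if there is no handle), or `ρ` is the transform (`Transform`) of an irreducible system
`D j`, `E j` of matrices of size `n`, `n (m - 1) ≤ r ≤ n (m + k)`, or `ρ` is induced (`Induced`)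
from an irreducible system `α j`, `β j` of matrices of size `n`, `r = n (m + 1)`. If `j` does not
belong to a handle, then `D j` and `β j` are scalars; if there is a handle, then `μ ^ 2`, `q`, `τ`
are `n`-th roots of unity. -/
theorem result {K : Type*} [Field K] [IsAlgClosed K] [TopologicalSpace K] [IsTopologicalRing K]
    [T2Space K] {P : Type*} [Group P] [TopologicalSpace P] [IsTopologicalGroup P] {m k r : ℕ}
    (hm : 11 ≤ m) (t : Fin m → P) (a : Fin k → P) (H : Fin k → Fin k → Prop) (ht : Surface t a H)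
    (hgen : (Subgroup.closure (Set.range t ∪ Set.range a)).topologicalClosure = ⊤)
    (ρ : P →* GL (Fin r) K) (hρ : Continuous ρ) (hr0 : 0 < r)
    (hirr : ∀ W : Submodule K (Fin r → K),
      (∀ g, ∀ w ∈ W, (ρ g : Matrix (Fin r) (Fin r) K) *ᵥ w ∈ W) → W = ⊥ ∨ W = ⊤)
    (hr : (∃ s L : ℕ, 2 ≤ s ∧ 5 ≤ L ∧ s * (L + 1) ≤ m + 1 ∧
        r < s * (s - 1) / 2 * (L - 1) ^ 2) ∨
      ∃ x, ∃ ν : K, ((ρ (t x) : Matrix (Fin r) (Fin r) K) - ν • 1).rank < m - 7) :
    (∃ μ : K, μ ≠ 0 ∧ (∀ x, (ρ (t x) : Matrix (Fin r) (Fin r) K) = μ • 1) ∧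
      (∀ i j, i < j → (ρ (a i) : Matrix (Fin r) (Fin r) K) * (ρ (a j) : Matrix (Fin r) (Fin r) K) =
        onH H (μ ^ 2) i j • ((ρ (a j) : Matrix (Fin r) (Fin r) K) *
          (ρ (a i) : Matrix (Fin r) (Fin r) K))) ∧
      ((∀ i j, i < j → ¬ H i j) → r = 1) ∧ (∀ i j, i < j → H i j → μ ^ (2 * r) = 1)) ∨
    (∃ (n : ℕ) (μ q : K) (D E : Fin k → Matrix (Fin n) (Fin n) K)
      (u : Fin m → Matrix (Fin r) (Fin n) K) (X : Fin k → Matrix (Fin r) (Fin n) K),
      0 < n ∧ n * (m - 1) ≤ r ∧ r ≤ n * (m + k) ∧ μ ≠ 0 ∧ q ≠ 0 ∧ (∀ j, IsUnit (D j)) ∧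
      (∀ j, IsUnit (E j)) ∧ Irred (Sum.elim D E) ∧
      (∀ j, (∀ i, ¬ H i j ∧ ¬ H j i) → ∃ d : K, D j = d • 1) ∧
      (∀ i j, i < j → H i j → μ ^ (2 * n) = 1 ∧ q ^ n = 1) ∧
      (k = 0 → n = 1 ∧ r = (burau (m := m) q).rank) ∧
      Transform (fun x => (ρ (t x) : Matrix (Fin r) (Fin r) K))
        (fun j => (ρ (a j) : Matrix (Fin r) (Fin r) K)) μ q H D E u X) ∨
    (∃ (n : ℕ) (μ τ : K) (α β : Fin k → Matrix (Fin n) (Fin n) K)
      (v : Fin (m + 1) → Matrix (Fin r) (Fin n) K),
      0 < n ∧ r = n * (m + 1) ∧ μ ≠ 0 ∧ τ ≠ 0 ∧ τ ≠ 1 ∧ (∀ j, IsUnit (α j)) ∧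
      (∀ j, IsUnit (β j)) ∧ Irred (Sum.elim α β) ∧
      (∀ j, (∀ i, ¬ H i j ∧ ¬ H j i) → ∃ c : K, β j = c • 1) ∧
      (∀ i j, i < j → H i j → μ ^ (2 * n) = 1 ∧ τ ^ n = 1) ∧ (k = 0 → n = 1) ∧
      Induced (fun x => (ρ (t x) : Matrix (Fin r) (Fin r) K))
        (fun j => (ρ (a j) : Matrix (Fin r) (Fin r) K)) μ τ H α β v) := by
  classical
  have hm0 : 0 < m := by omega
  have hmZ : (11 : ℤ) ≤ m := by exact_mod_cast hm
  obtain ⟨T, hT⟩ : ∃ T : ℤ → Module.End K (Fin r → K), T = fun x => act ρ (t (idx hm0 x)) :=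
    ⟨_, rfl⟩
  have hS : ASys hum (Set.Icc (1 : ℤ) m) T := by
    rw [hT]
    exact ht.sys hm0 (act ρ)
  have hTi : ∀ x, T x = act ρ (t (idx hm0 x)) := fun x => by rw [hT]
  have hinj : ∀ x ∈ Set.Icc (1 : ℤ) m, Function.Injective (T x) := fun x _ => by
    rw [hTi]
    exact act_inj ρ _
  have hTx : ∀ x : Fin m, T ((x.val : ℤ) + 1) = act ρ (t x) := by
    intro x
    rw [hTi, idx_val]
  have hirr2 : ∀ W : Submodule K (Fin r → K), (∀ x, ∀ w ∈ W, act ρ (t x) w ∈ W) →
      (∀ j, ∀ w ∈ W, act ρ (a j) w ∈ W) → W = ⊥ ∨ W = ⊤ := by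
    intro W hW hW2
    refine hirr W (stable_all ρ hρ hgen W ?_)
    rintro _ (⟨x, rfl⟩ | ⟨j, rfl⟩) w hw
    · exact hW x w hw
    · exact hW2 j w hw
  have hirr3 : ∀ W : Submodule K (Fin r → K),
      (∀ x ∈ Set.Icc (1 : ℤ) m, ∀ w ∈ W, T x w ∈ W) →
      (∀ j, ∀ w ∈ W, act ρ (a j) w ∈ W) → W = ⊥ ∨ W = ⊤ := by
    intro W hW hW2
    refine hirr2 W (fun x w hw => ?_) hW2
    have h := hW ((x.val : ℤ) + 1) (val_mem x) w hw
    rwa [hTx x] at h
  have hfin : Module.finrank K (Fin r → K) = r := by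
    rw [Module.finrank_fintype_fun_eq_card, Fintype.card_fin]
  by_cases hflat : ∀ x y, act ρ (t x) = act ρ (t y)
  · left
    exact flat_case hm ht hr0 hirr2 hflat
  right
  have hnf : ∃ x ∈ Set.Icc (1 : ℤ) m, ∃ y ∈ Set.Icc (1 : ℤ) m, T x ≠ T y := by
    push Not at hflat
    obtain ⟨x, y, h⟩ := hflat
    exact ⟨_, val_mem x, _, val_mem y, by rw [hTx, hTx]; exact h⟩
  -- (Q)
  have hQ : QQ T m := by
    rcases hr with ⟨s, L, hs, hL, hsL, hr⟩ | ⟨x, ν, hr⟩
    · exact qq_of_dim_chain hs hL hsL hinj hS (by rw [hfin]; exact hr)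
    · have hrk : (Module.finrank K (LinearMap.range
          (T ((x.val : ℤ) + 1) - ν • (1 : Module.End K _))) : ℤ) < m - 7 := by
        rw [hTx]
        have e : act ρ (t x) - ν • (1 : Module.End K (Fin r → K)) =
            Matrix.mulVecLin ((ρ (t x) : Matrix (Fin r) (Fin r) K) - ν • 1) := by
          refine LinearMap.ext fun w => ?_
          show (ρ (t x) : Matrix (Fin r) (Fin r) K) *ᵥ w - ν • w =
            ((ρ (t x) : Matrix (Fin r) (Fin r) K) - ν • 1) *ᵥ w
          rw [Matrix.sub_mulVec, Matrix.smul_mulVec, Matrix.one_mulVec]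
        rw [e]
        have h1 : Module.finrank K (LinearMap.range
            (Matrix.mulVecLin ((ρ (t x) : Matrix (Fin r) (Fin r) K) - ν • 1))) < m - 7 := hr
        omega
      exact qq_of_rank_chain hmZ hinj hS (val_mem x) hrk
  have hA : ∀ j x, 2 ≤ x → x ≤ (m : ℤ) → act ρ (a j) * T x = T x * act ρ (a j) := by
    intro j x h2 hxm
    have h1 := val_idx hm0 (x := x) ⟨by omega, hxm⟩
    rw [hTi, ← map_mul, ht.far j _ (by omega), map_mul]
  obtain ⟨μ, hμ, hfar⟩ := sc_main (T := T) (A := fun j => act ρ (a j)) hmZ hinj hS hA hirr3 hnf hQ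
  have h1m : (1 : ℤ) ∈ Set.Icc (1 : ℤ) m := ⟨le_rfl, by omega⟩
  have h2m : (2 : ℤ) ∈ Set.Icc (1 : ℤ) m := ⟨by omega, by omega⟩
  have h12 : T 1 ≠ T 2 := by
    have h := edge_neT hmZ (Or.inr rfl) hinj hS hnf 1 h1m 2 h2m (Or.inl ⟨le_rfl, rfl⟩)
    exact h
  -- the scaled generators
  obtain ⟨s, hs⟩ : ∃ s : ℤ → Module.End K (Fin r → K), s = fun x => μ⁻¹ • T x := ⟨_, rfl⟩
  have hsx : ∀ x, s x = μ⁻¹ • T x := fun x => by rw [hs]
  have hst : ∀ x w, s x w = μ⁻¹ • T x w := fun x w => by rw [hsx]; rfl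
  obtain ⟨si, hsi⟩ : ∃ si : Module.End K (Fin r → K), si = μ • act ρ (t (idx hm0 1))⁻¹ :=
    ⟨_, rfl⟩
  have hSs : ASys hum (Set.Icc (1 : ℤ) m) s := by
    refine ⟨fun x hx y hy h => ?_, fun x hx y hy h => ?_⟩
    · simp only [hs, smul_mul_smul_comm, hS.comm x hx y hy h]
    · simp only [hs, smul_mul_smul_comm, hS.braid x hx y hy h]
  have hinjs : ∀ x ∈ Set.Icc (1 : ℤ) m, Function.Injective (s x) := by
    intro x hx w w' hww
    rw [hst, hst] at hww
    exact hinj x hx (smul_right_injective _ (inv_ne_zero hμ) hww)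
  have hF : FarZ (m : ℤ) s := by
    intro x hx y hy h
    rw [hsx, hsx]
    exact hfar x hx y hy h
  have i1 : s 1 * si = 1 := by
    rw [hsx, hsi, hTi, smul_mul_smul_comm, inv_mul_cancel₀ hμ, one_smul, act_mul_inv]
  have i2 : si * s 1 = 1 := by
    rw [hsx, hsi, hTi, smul_mul_smul_comm, mul_inv_cancel₀ hμ, one_smul, act_inv_mul]
  have hv1 : ((idx hm0 (1 : ℤ) : Fin m) : ℕ) = 0 := by
    have := val_idx hm0 h1m
    omega
  obtain ⟨ξ, hξ⟩ : ∃ ξ : Fin k → Fin k → K, ξ = fun i j => if H i j then μ ^ 2 else 0 := ⟨_, rfl⟩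
  obtain ⟨η, hη⟩ : ∃ η : Fin k → Fin k → K, η = fun i j => if H i j then 0 else 1 := ⟨_, rfl⟩
  have hξ1 : ∀ {i j}, H i j → ξ i j = μ ^ 2 := fun {i j} h => by
    rw [hξ]
    exact if_pos h
  have hξ0 : ∀ {i j}, ¬ H i j → ξ i j = 0 := fun {i j} h => by
    rw [hξ]
    exact if_neg h
  have hη1 : ∀ {i j}, H i j → η i j = 0 := fun {i j} h => by
    rw [hη]
    exact if_pos h
  have hη0 : ∀ {i j}, ¬ H i j → η i j = 1 := fun {i j} h => by
    rw [hη]
    exact if_neg h
  have hcc : ∀ i j, i < j → ξ i j + η i j = onH H (μ ^ 2) i j := by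
    intro i j _
    by_cases h : H i j
    · rw [hξ1 h, hη1 h, onH_pos h, add_zero]
    · rw [hξ0 h, hη0 h, onH_neg h, zero_add]
  have hP : GSys (m : ℤ) s si (fun j => act ρ (a j)) ξ η := by
    refine ⟨hSs, hinjs, i1, i2, fun j => act_inj ρ _, ?_, ?_, ?_, ?_, ?_⟩
    · intro j x h2 hxm
      have h := hA j x h2 hxm
      rw [hsx, mul_smul_comm, smul_mul_assoc, h]
    · intro j
      have h := congrArg (act ρ) (ht.own j (idx hm0 1) hv1)
      rw [map_mul, map_mul, map_mul, map_mul, map_mul, map_mul, ← hTi] at h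
      show act ρ (a j) * s 1 * act ρ (a j) * s 1 = s 1 * act ρ (a j) * s 1 * act ρ (a j)
      simp only [hsx, mul_smul_comm, smul_mul_assoc, h]
    · intro i j hij
      have e : s 1 * act ρ (a j) * si = T 1 * act ρ (a j) * act ρ (t (idx hm0 1))⁻¹ := by
        rw [hsx, hsi, smul_mul_assoc, smul_mul_smul_comm, inv_mul_cancel₀ hμ, one_smul]
      show act ρ (a i) * (s 1 * act ρ (a j) * si) =
        s 1 * act ρ (a j) * (ξ i j • s 1 + η i j • si) * act ρ (a i)
      rw [e]
      by_cases hH : H i j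
      · have h := congrArg (act ρ) (ht.handle i j (idx hm0 1) hij hH hv1)
        rw [map_mul, map_mul, map_mul, map_mul, map_mul, map_mul, ← hTi] at h
        rw [h, hξ1 hH, hη1 hH, zero_smul, add_zero, mul_smul_comm, smul_mul_assoc, hsx,
          smul_mul_assoc, smul_mul_smul_comm, smul_mul_assoc, smul_smul]
        have e2 : μ ^ 2 * (μ⁻¹ * μ⁻¹) = 1 := by
          rw [pow_two, mul_mul_mul_comm, mul_inv_cancel₀ hμ, one_mul]
        rw [e2, one_smul]
      · have h := congrArg (act ρ) (ht.cross i j (idx hm0 1) hij hH hv1)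
        rw [map_mul, map_mul, map_mul, map_mul, map_mul, map_mul, ← hTi] at h
        rw [h, hξ0 hH, hη0 hH, zero_smul, zero_add, one_smul, e]
    · intro i j _
      by_cases h : H i j
      · right
        exact hη1 h
      · left
        exact hξ0 h
    · intro i j _
      by_cases h : H i j
      · rw [hξ1 h, hη1 h, add_zero]
        exact pow_ne_zero 2 hμ
      · rw [hξ0 h, hη0 h, zero_add]
        exact one_ne_zero
  have hirr4 : Irr (m : ℤ) s (fun j => act ρ (a j)) := by
    intro W hW hW2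
    refine hirr3 W (fun x hx w hw => ?_) hW2
    have h := W.smul_mem μ (hW x hx w hw)
    rw [hst, smul_smul, mul_inv_cancel₀ hμ, one_smul] at h
    exact h
  have hsm : ∀ x : Fin m, ∀ v, (ρ (t x) : Matrix (Fin r) (Fin r) K) *ᵥ v =
      μ • s ((x : ℕ) + 1) v := by
    intro x v
    rw [hst, smul_smul, mul_inv_cancel₀ hμ, one_smul, hTx]
    rfl
  by_cases hC : cE s 1 = 0
  · left
    have hs1 : s 1 ≠ 1 := by
      intro h
      apply h12
      refine LinearMap.ext fun v => ?_
      have hT1 : ∀ w, T 1 w = μ • w := by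
        intro w
        have h1 := hst 1 w
        rw [h] at h1
        have h2 : w = μ⁻¹ • T 1 w := h1
        rw [h2, smul_smul, mul_inv_cancel₀ hμ, one_smul, ← h2]
      have h1 := LinearMap.congr_fun (hS.braid 1 h1m 2 h2m (Or.inl ⟨le_rfl, rfl⟩)) v
      have h2 : T 1 (T 2 (T 1 v)) = T 2 (T 1 (T 2 v)) := h1
      rw [hT1, hT1, hT1, map_smul, map_smul] at h2
      have h3 := smul_right_injective _ hμ h2
      have h4 : T 2 (μ • v) = T 2 (T 2 v) := by
        rw [map_smul]
        exact h3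
      rw [hT1]
      exact hinj 2 h2m h4
    have hCC : ∀ x, 1 ≤ x → x + 1 ≤ (m : ℤ) → cE s x = 0 := by
      intro x h1 h2
      have h := cE_zero hinjs hSs hF hC (x - 1).toNat (by omega)
      have e : (((x - 1).toNat : ℕ) : ℤ) + 1 = x := by omega
      rw [e] at h
      exact h
    have hB := gb_alg hmZ hP hF hCC
    obtain ⟨q, D, E, u, w, -, hO⟩ := gb_main hmZ hP hF hCC hB hirr4 hs1
    have hU : pU s ≠ ⊥ := by
      intro h
      exact hs1 (sub_eq_zero.1 (LinearMap.range_eq_bot.1 h))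
    have hw : ∀ i j, i < j → η i j + q * ξ i j = onH H (μ ^ 2 * q) i j := by
      intro i j _
      by_cases h : H i j
      · rw [hξ1 h, hη1 h, onH_pos h, zero_add, mul_comm]
      · rw [hξ0 h, hη0 h, onH_neg h, mul_zero, add_zero]
    obtain ⟨n, D', E', u', w', hn, hlo, hup, hD, hE, hI, hTr⟩ := conv_B hm hsm hU hcc hw hO
    refine ⟨n, μ, q, D', E', u', w', hn, hlo, hup, hμ, hO.q0, hD, hE, hI, ?_, ?_, ?_, hTr⟩
    · intro j hj
      refine schur_mat hn hI ?_
      rintro (i | i)
      · show D' j * D' i = D' i * D' j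
        rcases lt_trichotomy j i with h | h | h
        · rw [hTr.dd j i h, onH_neg (hj i).2, one_smul]
        · rw [h]
        · rw [hTr.dd i j h, onH_neg (hj i).1, one_smul]
      · show D' j * E' i = E' i * D' j
        rcases lt_trichotomy j i with h | h | h
        · rw [hTr.de j i h, onH_neg (hj i).2, one_smul]
        · subst h
          exact hTr.de0 j
        · rw [hTr.ed i j h, onH_neg (hj i).1, one_smul]
    · intro i j hij hH
      have h1 := hTr.dd i j hij
      have h2 := hTr.de i j hij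
      rw [onH_pos hH] at h1 h2
      have h3 := det_comm (hD i) (hD j) h1
      have h4 := det_comm (hD i) (hE j) h2
      rw [mul_pow, h3, one_mul] at h4
      rw [pow_mul]
      exact ⟨h3, h4⟩
    · intro hk
      subst hk
      exact conv_k hμ hm hn hI (fun W hW => hirr2 W hW (fun j => j.elim0)) hTr
  · right
    have hTF := gt_alg hmZ hP hF
    obtain ⟨hU, τ, al, be, v, -, hO⟩ := gt_main hm hP hF hTF hirr4 hC
    have hw : ∀ i j, i < j → ξ i j * τ + η i j = onH H (μ ^ 2 * τ) i j := by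
      intro i j _
      by_cases h : H i j
      · rw [hξ1 h, hη1 h, onH_pos h, add_zero]
      · rw [hξ0 h, hη0 h, onH_neg h, zero_mul, zero_add]
    obtain ⟨n, α, β, v', hn, hcard, hα, hβ, hI, hInd⟩ := conv_T hsm hU hcc hw hO
    refine ⟨n, μ, τ, α, β, v', hn, hcard, hμ, hO.t0, hO.t1, hα, hβ, hI, ?_, ?_, ?_, hInd⟩
    · intro j hj
      refine schur_mat hn hI ?_
      rintro (i | i)
      · show β j * α i = α i * β j
        rcases lt_trichotomy j i with h | h | h
        · rw [hInd.ba j i h, onH_neg (hj i).2, one_smul]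
        · subst h
          exact (hInd.own j).symm
        · rw [hInd.ab i j h, onH_neg (hj i).1, one_smul]
      · show β j * β i = β i * β j
        rcases lt_trichotomy j i with h | h | h
        · rw [hInd.bb j i h, onH_neg (hj i).2, one_smul]
        · rw [h]
        · rw [hInd.bb i j h, onH_neg (hj i).1, one_smul]
    · intro i j hij hH
      have h1 := hInd.bb i j hij
      have h2 := hInd.ab i j hij
      rw [onH_pos hH] at h1 h2
      have h3 := det_comm (hβ i) (hβ j) h1
      have h4 := det_comm (hα i) (hβ j) h2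
      rw [mul_pow, h3, one_mul] at h4
      rw [pow_mul]
      exact ⟨h3, h4⟩
    · intro hk
      subst hk
      exact irr_empty hn hI

end Pool.Agent.Results.MP_80bee4_ag.CurvesLowRank
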