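import Pool.Agent.Lib.GeoOrig.CurveBraid

/-!
# Sheaves of rank `r` on configuration spaces of curves of genus `g`

In the application `P` is the tame fundamental group of the space of configurations of `n - m`
points on a smooth affine curve over a finite field, of genus `g` and with `p > 0` points at
infinity, and `m = 2 g + p - 1`.
-/

open Matrix Pool.Agent.BraidRep

namespace Pool.Agent.Results.MP_80bee4_ag.GenusBound

/-- Let `A i j`, for `i < j` and `m ≤ j`, be elements of a topological group `P` which satisfy
Bellingeri's relations between the standard generators of the fundamental group of the space of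
configurations of points on a surface of genus `g` with `m - 2 g + 1` punctures (`i < 2 g`:
handles, `2 g ≤ i < m`: all punctures but one, `i ≥ m`: moving points), and let `ρ` be a continuous
homomorphism from `P` to `GL_r(K)`. If `ρ (A j s) ≠ 1` for two moving points `j < s`, then `2 g`
plus the number of the punctures and moving points `k < j` such that `ρ (A k j)` and `ρ (A k s)` do
not commute is at most `2 r - 2`. If `r ≤ g` then `ρ` is trivial on the closed normal subgroup
generated by the `A j s`, `m ≤ j < s`; the quotient by it is the fundamental group of the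
`(n - m)`-th power of the curve. -/
theorem result {K : Type*} [Field K] [TopologicalSpace K] [T2Space K] {P : Type*} [Group P]
    [TopologicalSpace P] [IsTopologicalGroup P] {g m n r : ℕ} (hr : 0 < r)
    (A : Fin n → Fin n → P) (hA : CurveBraid g m A) (ρ : P →* GL (Fin r) K)
    (hρ : Continuous ρ) :
    (∀ j s, m ≤ j.val → j < s → ρ (A j s) ≠ 1 → ∀ U : Finset (Fin n),
      (∀ k ∈ U, 2 * g ≤ k.val ∧ k < j ∧ ¬ Commute (ρ (A k j)) (ρ (A k s))) →
        2 * g + U.card ≤ 2 * r - 2) ∧
    (r ≤ g → ∀ x ∈ (Subgroup.normalClosure {x | ∃ j s, m ≤ j.val ∧ j < s ∧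
      x = A j s}).topologicalClosure, ρ x = 1) := by
  have h1 : ∀ j s, m ≤ j.val → j < s → ρ (A j s) ≠ 1 → ∀ U : Finset (Fin n),
      (∀ k ∈ U, 2 * g ≤ k.val ∧ k < j ∧ ¬ Commute (ρ (A k j)) (ρ (A k s))) →
        2 * g + U.card ≤ 2 * r - 2 := fun j s hj hjs hne U hU =>
    (hA.map ρ).bound (C := Set.univ) (fun _ _ _ _ => Set.mem_univ _)
      (fun _ _ _ => Set.mem_univ _) (skewOn_gl hr) hj hjs hne U hU
  refine ⟨h1, fun hrg => ?_⟩
  have h2 : (Subgroup.normalClosure {x | ∃ j s, m ≤ j.val ∧ j < s ∧
      x = A j s}).topologicalClosure ≤ ρ.ker := by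
    apply Subgroup.topologicalClosure_minimal
    · apply Subgroup.normalClosure_le_normal
      rintro x ⟨j, s, hj, hjs, rfl⟩
      show A j s ∈ ρ.ker
      rw [MonoidHom.mem_ker]
      by_contra hne
      have h3 := h1 j s hj hjs hne ∅ (fun k hk => absurd hk (Finset.notMem_empty k))
      omega
    · exact isClosed_singleton.preimage hρ
  exact fun x hx => MonoidHom.mem_ker.1 (h2 hx)

end Pool.Agent.Results.MP_80bee4_ag.GenusBound
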