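import Pool.Agent.Lib.GeoOrig.Prime

/-!
# Tensor-indecomposable factors of irreducible lisse sheaves

In the application to a smooth variety `X` over a finite field, `P = π₁(X)`, and the subgroups `N`
and `K j` with open normaliser are for instance the kernels of the maps from `π₁` of finite étale
coverings `X'` of `X` to the fundamental groups of varieties of smaller dimension, or geometric
versions of these kernels.
-/

open Matrix

namespace Pool.Agent.Results.MP_80bee4_ag.PrimeFactors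

/-- Let `P` be a profinite group. Every irreducible continuous `ρ : P → GL_r(ℚ̄_ℓ)` contains, on an
open normal subgroup `U`, the twist by a continuous character `χ` of a tensor product
`σ 0 ⊗ ⋯ ⊗ σ (n - 1)` of continuous representations `σ i : U → SL_{d i}(ℚ̄_ℓ)`, `d i ≥ 2`, such that
`∏ d i` divides `r` and the following holds for each `i`.
* (Indecomposability) For every open subgroup `V`, the only subalgebras of the algebra of all
  `d i × d i` matrices normalised by `σ i (U ∩ V)` are the scalars and the whole algebra.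
* (Dichotomy) Let `N` be a subgroup of `P` with open normaliser. Either `σ i` is trivial on `N ∩ V`
  for some open subgroup `V`, or `σ i` stays irreducible on `N ∩ V` for all open subgroups `V`
  (its values span all matrices).
* (Kernels) Let `K 0, …, K (m - 1)` be subgroups with open normalisers such that for some open
  subgroup `V` the group `ρ (V ∩ K 0 ∩ ⋯ ∩ K (m - 1))` is solvable. Then `σ i` is trivial on
  `K j ∩ V` for some `j` and some open subgroup `V`.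
Moreover `χ = 1` if `det ρ` has finite order and, for some subgroup `G` containing the commutators,
all continuous characters of open subgroups `U'` have finite order on `U' ∩ G`. -/
theorem result (ℓ : ℕ) [Fact ℓ.Prime] {P : Type*} [Group P] [TopologicalSpace P]
    [IsTopologicalGroup P] [CompactSpace P] [TotallyDisconnectedSpace P]
    (r : ℕ) (hr : 0 < r) (ρ : P →* GL (Fin r) (PadicAlgCl ℓ)) (hρ : Continuous ρ)
    (hirr : ∀ W : Submodule (PadicAlgCl ℓ) (Fin r → PadicAlgCl ℓ),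
      (∀ g, ∀ w ∈ W, (ρ g : Matrix (Fin r) (Fin r) (PadicAlgCl ℓ)) *ᵥ w ∈ W) →
        W = ⊥ ∨ W = ⊤) :
    ∃ (U : Subgroup P) (n : ℕ) (d : Fin n → ℕ)
      (σ : ∀ i, U →* SpecialLinearGroup (Fin (d i)) (PadicAlgCl ℓ)) (χ : U →* (PadicAlgCl ℓ)ˣ),
      IsOpen (U : Set P) ∧ U.Normal ∧ (∀ i, 2 ≤ d i ∧ Continuous (σ i)) ∧ Continuous χ ∧
      ∏ i, d i ∣ r ∧
      (∃ J : ((∀ i, Fin (d i)) → PadicAlgCl ℓ) →ₗ[PadicAlgCl ℓ] (Fin r → PadicAlgCl ℓ),
        Function.Injective J ∧ ∀ (g : U) (f : (∀ i, Fin (d i)) → PadicAlgCl ℓ),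
          (ρ g : Matrix (Fin r) (Fin r) (PadicAlgCl ℓ)) *ᵥ J f =
            J (fun p => (χ g : PadicAlgCl ℓ) * ∑ q,
              (∏ i, (σ i g : Matrix (Fin (d i)) (Fin (d i)) (PadicAlgCl ℓ))
                (p i) (q i)) * f q)) ∧
      (∀ i, ∀ V : Subgroup P, IsOpen (V : Set P) →
        ∀ B : Subalgebra (PadicAlgCl ℓ) (Matrix (Fin (d i)) (Fin (d i)) (PadicAlgCl ℓ)),
          (∀ g : U, (g : P) ∈ V → ∀ b ∈ B,
            (σ i g : Matrix (Fin (d i)) (Fin (d i)) (PadicAlgCl ℓ)) * b *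
              (σ i g⁻¹ : Matrix (Fin (d i)) (Fin (d i)) (PadicAlgCl ℓ)) ∈ B) →
          B = ⊥ ∨ B = ⊤) ∧
      (∀ i, ∀ N : Subgroup P, IsOpen (Subgroup.normalizer (N : Set P) : Set P) →
        (∃ V : Subgroup P, IsOpen (V : Set P) ∧
          ∀ g : U, (g : P) ∈ N → (g : P) ∈ V → σ i g = 1) ∨
        ∀ V : Subgroup P, IsOpen (V : Set P) →
          Submodule.span (PadicAlgCl ℓ) {A : Matrix (Fin (d i)) (Fin (d i)) (PadicAlgCl ℓ) |
            ∃ g : U, (g : P) ∈ N ∧ (g : P) ∈ V ∧ A = σ i g} = ⊤) ∧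
      (∀ (m : ℕ) (K : Fin m → Subgroup P),
        (∀ j, IsOpen (Subgroup.normalizer (K j : Set P) : Set P)) →
        (∃ V : Subgroup P, IsOpen (V : Set P) ∧
          Group.IsSolvable ↥((V ⊓ ⨅ j, K j).map ρ)) →
        ∀ i, ∃ j, ∃ V : Subgroup P, IsOpen (V : Set P) ∧
          ∀ g : U, (g : P) ∈ K j → (g : P) ∈ V → σ i g = 1) ∧
      ((∃ G : Subgroup P, (∀ x y : P, x * y * x⁻¹ * y⁻¹ ∈ G) ∧
          ∀ U' : Subgroup P, IsOpen (U' : Set P) →
            ∀ χ' : U' →* (PadicAlgCl ℓ)ˣ, Continuous χ' →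
              ∃ m : ℕ, 0 < m ∧ ∀ g : U', (g : P) ∈ G → χ' g ^ m = 1) →
        (∃ m : ℕ, 0 < m ∧
          ∀ g, (ρ g : Matrix (Fin r) (Fin r) (PadicAlgCl ℓ)).det ^ m = 1) →
        ∀ g, χ g = 1) := by
  classical
  obtain ⟨V, hVo, hVn, n, d, f, hf, hdvd, χ, hχ1, hχmul, hχ0, hχc, ⟨J, hJ, hact⟩, hker, hχt⟩ :=
    Pool.Agent.GeoOrig.prime_main hr ρ hρ hirr
  let χ' : V →* (PadicAlgCl ℓ)ˣ := MonoidHom.toHomUnits
    { toFun := fun v => χ v
      map_one' := hχ1
      map_mul' := fun a b => hχmul a a.2 b b.2 }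
  have hχ'v : ∀ v : V, (χ' v : PadicAlgCl ℓ) = χ v := fun v => rfl
  have hpos : ∀ i, 0 < d i := fun i => by have := (hf i).1; omega
  have hnorm : ∀ N : Subgroup P, ∀ g ∈ Subgroup.normalizer (N : Set P), ∀ x ∈ N,
      g * x * g⁻¹ ∈ N := fun N g hg x hx => (Subgroup.mem_normalizer_iff.1 hg x).1 hx
  refine ⟨V, n, d, fun i =>
    { toFun := fun g => ⟨f i g, (hf i).2.1.det g g.2⟩
      map_one' := Subtype.ext (hf i).2.1.rep.one
      map_mul' := fun a b => Subtype.ext ((hf i).2.1.rep.mul a a.2 b b.2) }, χ', hVo, hVn,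
    fun i => ⟨(hf i).1, ?_⟩, ?_, hdvd, ⟨J, hJ, fun g w => ?_⟩, fun i W hW B hB => ?_,
    fun i N hN => ?_, fun m L hL hsol i => ?_, fun h1 h2 g => ?_⟩
  · exact ((hf i).2.1.rep.cont.domRestrict).subtype_mk _
  · rw [Units.continuous_iff]
    have h1 : Continuous (fun v : V => χ v) := hχc.domRestrict
    refine ⟨h1, ?_⟩
    have h2 : (fun v : V => ((χ' v)⁻¹ : (PadicAlgCl ℓ)ˣ).val) = fun v : V => (χ v)⁻¹ := by
      funext v
      rw [Units.val_inv_eq_inv_val, hχ'v]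
    show Continuous (fun v : V => ((χ' v)⁻¹ : (PadicAlgCl ℓ)ˣ).val)
    rw [h2]
    exact h1.inv₀ fun v => hχ0 v v.2
  · rw [hact g g.2 w]
    rfl
  · exact Pool.Agent.GeoOrig.sub_trivial (hpos i) hVo (hf i).2.1 (hf i).2.2 B hW
      fun g hg b hb => hB ⟨g, hg.1⟩ hg.2 b hb
  · rcases Pool.Agent.GeoOrig.dich (hpos i) hVo (hf i).2.1 (hf i).2.2 hN (hnorm N) with
      ⟨V', -, hV'o, hV'⟩ | h
    · exact Or.inl ⟨V', hV'o, fun g hg1 hg2 => Subtype.ext (hV' g ⟨hg1, hg2⟩)⟩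
    · right
      intro W hW
      rw [eq_top_iff, ← h W hW]
      refine Submodule.span_mono ?_
      rintro _ ⟨x, hx, rfl⟩
      exact ⟨⟨x, hx.1.2⟩, hx.1.1, hx.2, rfl⟩
  · obtain ⟨V₁, hV₁o, hs⟩ := hsol
    obtain ⟨k, hk⟩ := hs.solvable
    have hWo : IsOpen ((⨅ j, Subgroup.normalizer (L j : Set P) : Subgroup P) : Set P) := by
      rw [Subgroup.coe_iInf]
      exact isOpen_iInter_of_finite hL
    obtain ⟨j, V', -, hV'o, hV'⟩ := Pool.Agent.GeoOrig.kernels (hf i).1 hVo (hf i).2.1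
      (hf i).2.2 L hWo (fun j g hg x hx => hnorm (L j) g (Subgroup.mem_iInf.1 hg j) x hx) hV₁o k
      (fun g hg hgV => by
        have h1 : ρ g ∈ (Pool.Agent.GeoOrig.solvSer (V₁ ⊓ ⨅ j, L j) k).map ρ := ⟨g, hg, rfl⟩
        rw [Pool.Agent.GeoOrig.solvSer_map, Pool.Agent.GeoOrig.solvSer_eq_map, hk,
          Subgroup.map_bot, Subgroup.mem_bot] at h1
        exact ⟨1, by rw [one_smul]; exact hker g hgV h1 i⟩)
    exact ⟨j, V', hV'o, fun g hg1 hg2 => Subtype.ext (hV' g ⟨hg1, hg2⟩)⟩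
  · exact Units.ext (hχt h1 h2 g g.2)

end Pool.Agent.Results.MP_80bee4_ag.PrimeFactors
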