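import Pool.Agent.Lib.GeoOrig.ClosedThree
import Pool.Agent.Lib.GeoOrig.LieThree

/-!
# Sheaves of rank three on configuration spaces of curves

In the application `P` is the tame fundamental group of the space of configurations of `n - m`
points on a smooth curve over a finite field, of genus `g` and with `m - 2 g` points at infinity,
and `K` is the algebraic closure of the field of `ℓ`-adic numbers.
-/

open Matrix Pool.Agent.BraidRep

namespace Pool.Agent.Results.MP_80bee4_ag.RankThree

/-- Let `P` be a profinite group and let `A i j`, for `i < j` and `m ≤ j`, be elements of `P` which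
satisfy Bellingeri's relations between the standard generators of the fundamental group of the
space of configurations of `n - m` points on a closed surface of genus `g` minus `m - 2 g` points
(`i < 2 g`: handles, `2 g ≤ i < m`: punctures, `i ≥ m`: moving points). Suppose that for every
moving point `v` the closed subgroup generated by the `A i v` and `A v i` is normal in `P`. Let
`ρ : P → GL₃(K)` be a continuous representation which is irreducible on every open subgroup, over
an algebraically closed normed field of characteristic different from two.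

Then there are a set `S` of punctures and a set `T` of moving points, with `|T| ≤ 1` or
`2 g + |S| + |T| ≤ 4` or `g = 0` and `|S| + |T| = 5`, such that `ρ` is scalar on the closed normal
subgroup generated by the `A i j` such that `j` or a moving point `i` is not in `T`, or `i` is a
puncture which is not in `S`. Moreover, if `|T| = 5` (so that `g = 0` and `S` is empty) then for
any two elements `i < j` of `T` the matrix `ρ (A i j)` is the sum of a scalar and a matrix of rank
one, and no nondegenerate quadratic form is preserved up to scalars by all these matrices.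

The quotient of `P` by the closed normal subgroup is, in the application, the fundamental group of
the space of configurations of the points in `T` on the curve with the punctures in `S`. -/
theorem result {K : Type*} [NontriviallyNormedField K] [IsAlgClosed K] (h2 : (2 : K) ≠ 0)
    {P : Type*} [Group P] [TopologicalSpace P] [IsTopologicalGroup P] [CompactSpace P]
    [TotallyDisconnectedSpace P] {g m n : ℕ} (A : Fin n → Fin n → P) (hA : ClosedBraid g m A)
    (hN : ∀ v : Fin n, m ≤ v.val →
      (Subgroup.closure {x | ∃ i, (i < v ∧ x = A i v) ∨ (v < i ∧ x = A v i)}).topologicalClosure.Normal)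
    (ρ : P →* GL (Fin 3) K) (hρ : Continuous ρ)
    (hirr : ∀ V : Subgroup P, IsOpen (V : Set P) → ∀ W : Submodule K (Fin 3 → K),
      (∀ x ∈ V, ∀ w ∈ W, (ρ x : Matrix (Fin 3) (Fin 3) K) *ᵥ w ∈ W) → W = ⊥ ∨ W = ⊤) :
    ∃ S T : Finset (Fin n), (∀ k ∈ S, 2 * g ≤ k.val ∧ k.val < m) ∧ (∀ v ∈ T, m ≤ v.val) ∧
      (T.card ≤ 1 ∨ 2 * g + S.card + T.card ≤ 4 ∨ (g = 0 ∧ S.card + T.card = 5)) ∧
      (∀ x ∈ (Subgroup.normalClosure {x | ∃ i j, i < j ∧ m ≤ j.val ∧
        (j ∉ T ∨ (m ≤ i.val ∧ i ∉ T) ∨ (2 * g ≤ i.val ∧ i.val < m ∧ i ∉ S)) ∧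
          x = A i j}).topologicalClosure,
        ∃ c : K, (ρ x : Matrix (Fin 3) (Fin 3) K) = c • (1 : Matrix (Fin 3) (Fin 3) K)) ∧
      (T.card = 5 → (∀ i ∈ T, ∀ j ∈ T, i < j → ∃ c : K,
        ((ρ (A i j) : Matrix (Fin 3) (Fin 3) K) -
          c • (1 : Matrix (Fin 3) (Fin 3) K)).rank = 1) ∧
        ∀ Q : Matrix (Fin 3) (Fin 3) K, Qᵀ = Q → Q.det ≠ 0 → ∃ i ∈ T, ∃ j ∈ T, i < j ∧
          ∀ c : K, (ρ (A i j) : Matrix (Fin 3) (Fin 3) K)ᵀ * Q *
            (ρ (A i j) : Matrix (Fin 3) (Fin 3) K) ≠ c • Q) := by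
  have hset : ∀ v : Fin n, {x | ∃ i, (i < v ∧ x = A i v) ∨ (v < i ∧ x = A v i)} =
      {x | ∃ i, i ≠ v ∧ x = sy A i v} := by
    intro v
    ext x
    constructor
    · rintro ⟨i, ⟨h1, h2⟩ | ⟨h1, h2⟩⟩
      · exact ⟨i, h1.ne, by rw [sy_of_lt h1]; exact h2⟩
      · exact ⟨i, h1.ne', by rw [sy_of_gt h1]; exact h2⟩
    · rintro ⟨i, h1, h2⟩
      rcases lt_or_gt_of_ne h1 with h3 | h3
      · exact ⟨i, Or.inl ⟨h3, by rw [h2, sy_of_lt h3]⟩⟩
      · exact ⟨i, Or.inr ⟨h3, by rw [h2, sy_of_gt h3]⟩⟩
  have hsy : ∀ i j, sy (fun i j => ρ (A i j)) i j = ρ (sy A i j) := by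
    intro i j
    unfold sy
    split_ifs <;> rfl
  obtain ⟨S, T, a1, a2, a3, a4, a5⟩ := (hA.map ρ).rank_three h2 (fun v hv => by
    rcases Pool.Agent.GeoOrig.lie_three ρ hρ hirr {x | ∃ i, i ≠ v ∧ x = sy A i v}
      (by rw [← hset v]; exact hN v hv) with h1 | ⟨h1, h2⟩
    · left
      intro i hi
      rw [hsy]
      exact h1 _ ⟨i, hi, rfl⟩
    · right
      refine ⟨fun W hW => h1 W ?_, fun y hy => h2 y ?_⟩
      · rintro x ⟨i, hi, rfl⟩ w hw
        rw [← hsy]
        exact hW i hi w hw
      · rintro x ⟨i, hi, rfl⟩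
        rw [← hsy]
        exact hy i hi)
  refine ⟨S, T, a1, a2, a3, scal_closure hρ ?_, a5⟩
  rintro x ⟨i, j, b1, b2, b3, rfl⟩
  exact mem_center_iff.1 (a4 i j b1 b2 b3)

end Pool.Agent.Results.MP_80bee4_ag.RankThree
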