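import Pool.Agent.Lib.GeoOrig.Transfer

/-!
# Lisse sheaves sharing a constituent with a sheaf of geometric origin

In the application to a smooth variety `X` over a finite field, `P = π₁(X)`, `G` is the geometric
fundamental group, and the subgroups `K j` with open normaliser are the kernels of the maps from
`π₁` of finite étale coverings of `X` to the fundamental groups of curves.
-/

open Matrix

namespace Pool.Agent.Results.MP_80bee4_ag.Transfer

/-- Let `P` be a profinite group and `G` a subgroup such that every continuous character of every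
open subgroup `U'` has finite order on `U' ∩ G`. Let `ρ : P → GL_r(ℚ̄_ℓ)` be continuous and
irreducible, `W` an open subgroup, `π : W → GL_s(ℚ̄_ℓ)` continuous, and `K 0, …, K (m - 1)`
subgroups with open normalisers. Suppose that `π` and `ρ` are linked by a nonzero homomorphism `X`
on the `k`-th derived subgroup of `W ∩ K 0 ∩ ⋯ ∩ K (m - 1)`, for some `k`. Then there are an open
normal subgroup `U ≤ W`, continuous representations `σ i : U → SL_{d i}(ℚ̄_ℓ)` with `d i ≥ 2`, each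
of them trivial on `K j ∩ U` for some `j`, with `∏ d i ≤ r s`, and a continuous character `χ` of
`U`, trivial on `G ∩ U`, such that `ρ` is contained in the representation of `P` induced by
`χ ⊗ π ⊗ σ 0 ⊗ ⋯ ⊗ σ (n - 1)`, by means of `w ↦ (x ↦ J (ρ x w))`. Moreover, for every open
subgroup `V`, the only subalgebras of the algebra of all `d i × d i` matrices normalised by
`σ i (U ∩ V)` are the scalars and the whole algebra. -/
theorem result (ℓ : ℕ) [Fact ℓ.Prime] {P : Type*} [Group P] [TopologicalSpace P]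
    [IsTopologicalGroup P] [CompactSpace P] [TotallyDisconnectedSpace P] (G : Subgroup P)
    (hG : ∀ U' : Subgroup P, IsOpen (U' : Set P) → ∀ χ' : U' →* (PadicAlgCl ℓ)ˣ,
      Continuous χ' → ∃ m : ℕ, 0 < m ∧ ∀ g : U', (g : P) ∈ G → χ' g ^ m = 1)
    (r s : ℕ) (ρ : P →* GL (Fin r) (PadicAlgCl ℓ)) (hρ : Continuous ρ)
    (hirr : ∀ Y : Submodule (PadicAlgCl ℓ) (Fin r → PadicAlgCl ℓ),
      (∀ g, ∀ w ∈ Y, (ρ g : Matrix (Fin r) (Fin r) (PadicAlgCl ℓ)) *ᵥ w ∈ Y) →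
        Y = ⊥ ∨ Y = ⊤)
    (W : Subgroup P) (hW : IsOpen (W : Set P)) (π : W →* GL (Fin s) (PadicAlgCl ℓ))
    (hπ : Continuous π) (m : ℕ) (K : Fin m → Subgroup P)
    (hK : ∀ j, IsOpen (Subgroup.normalizer (K j : Set P) : Set P)) (k : ℕ)
    (X : Matrix (Fin s) (Fin r) (PadicAlgCl ℓ)) (hX0 : X ≠ 0)
    (hX : ∀ g ∈ derivedSeries ↥(W ⊓ ⨅ j, K j) k,
      (π ⟨(g : P), g.2.1⟩ : Matrix (Fin s) (Fin s) (PadicAlgCl ℓ)) * X =
        X * (ρ (g : P) : Matrix (Fin r) (Fin r) (PadicAlgCl ℓ))) :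
    ∃ (U : Subgroup P) (hUW : U ≤ W) (n : ℕ) (d : Fin n → ℕ)
      (σ : ∀ i, U →* SpecialLinearGroup (Fin (d i)) (PadicAlgCl ℓ)) (χ : U →* (PadicAlgCl ℓ)ˣ),
      IsOpen (U : Set P) ∧ U.Normal ∧ (∀ i, 2 ≤ d i ∧ Continuous (σ i)) ∧ Continuous χ ∧
      ∏ i, d i ≤ r * s ∧
      (∀ i, ∃ j, ∀ g : U, (g : P) ∈ K j → σ i g = 1) ∧
      (∀ g : U, (g : P) ∈ G → χ g = 1) ∧
      (∀ i, ∀ V : Subgroup P, IsOpen (V : Set P) →
        ∀ B : Subalgebra (PadicAlgCl ℓ) (Matrix (Fin (d i)) (Fin (d i)) (PadicAlgCl ℓ)),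
          (∀ g : U, (g : P) ∈ V → ∀ b ∈ B,
            (σ i g : Matrix (Fin (d i)) (Fin (d i)) (PadicAlgCl ℓ)) * b *
              (σ i g⁻¹ : Matrix (Fin (d i)) (Fin (d i)) (PadicAlgCl ℓ)) ∈ B) →
          B = ⊥ ∨ B = ⊤) ∧
      ∃ J : (Fin r → PadicAlgCl ℓ) →ₗ[PadicAlgCl ℓ] (Fin s × (∀ i, Fin (d i)) → PadicAlgCl ℓ),
        (∀ w, (∀ x : P, J ((ρ x : Matrix (Fin r) (Fin r) (PadicAlgCl ℓ)) *ᵥ w) = 0) → w = 0) ∧
        ∀ (g : U) (w : Fin r → PadicAlgCl ℓ) (a : Fin s) (p : ∀ i, Fin (d i)),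
          J ((ρ g : Matrix (Fin r) (Fin r) (PadicAlgCl ℓ)) *ᵥ w) (a, p) =
            (χ g : PadicAlgCl ℓ) * ∑ b, ∑ q,
              (π ⟨(g : P), hUW g.2⟩ : Matrix (Fin s) (Fin s) (PadicAlgCl ℓ)) a b *
                (∏ i, (σ i g : Matrix (Fin (d i)) (Fin (d i)) (PadicAlgCl ℓ))
                  (p i) (q i)) * J w (b, q) := by
  classical
  let π' : P → Matrix (Fin s) (Fin s) (PadicAlgCl ℓ) := fun g =>
    if h : g ∈ W then (π ⟨g, h⟩ : Matrix (Fin s) (Fin s) (PadicAlgCl ℓ)) else 1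
  have hπ' : ∀ (g : P) (h : g ∈ W),
      π' g = (π ⟨g, h⟩ : Matrix (Fin s) (Fin s) (PadicAlgCl ℓ)) := fun g h => dif_pos h
  have hrep : Pool.Agent.GeoOrig.RepOn W π' := by
    refine ⟨?_, fun u hu v hv => ?_, ?_⟩
    · rw [hπ' 1 W.one_mem]
      have h1 : (⟨1, W.one_mem⟩ : W) = 1 := rfl
      rw [h1, map_one, Units.val_one]
    · rw [hπ' u hu, hπ' v hv, hπ' _ (W.mul_mem hu hv)]
      have h1 : (⟨u * v, W.mul_mem hu hv⟩ : W) = ⟨u, hu⟩ * ⟨v, hv⟩ := rfl
      rw [h1, map_mul, Units.val_mul]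
    · rw [continuousOn_iff_continuous_domRestrict]
      have h1 : Continuous (fun g : W => (π g : Matrix (Fin s) (Fin s) (PadicAlgCl ℓ))) :=
        Units.continuous_val.comp hπ
      have h2 : (W : Set P).domRestrict π' =
          fun g : W => (π g : Matrix (Fin s) (Fin s) (PadicAlgCl ℓ)) :=
        funext fun g => hπ' g g.2
      rw [h2]
      exact h1
  obtain ⟨U, n, d, σ, χ, hUW, h1, h2, h3, h4, h5, h6, h7, h8, J, h9, h10⟩ :=
    Pool.Agent.GeoOrig.transfer_main (G := G) hG ρ hρ hirr hW hrep K hK k hX0 (fun g hg => by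
      rw [Pool.Agent.GeoOrig.solvSer_eq_map] at hg
      obtain ⟨x, hx, rfl⟩ := hg
      have h1 := hX x hx
      rw [← hπ' (x : P) x.2.1] at h1
      exact h1)
  refine ⟨U, hUW, n, d, σ, χ, h1, h2, h3, h4, h5, h6, h7, h8, J, h9, fun g w a p => ?_⟩
  rw [h10 g w a p]
  simp only [hπ' (g : P) (hUW g.2)]

end Pool.Agent.Results.MP_80bee4_ag.Transfer
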