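import Pool.Agent.Lib.GeoOrig.BraidScal

/-!
# Sheaves of type `A₁` on configuration spaces

In the application `P` is the tame fundamental group of the space of configurations of `n - m`
points in the affine line minus `m` points over a finite field.
-/

open Matrix Pool.Agent.BraidRep

namespace Pool.Agent.Results.MP_80bee4_ag.TypeAOne

/-- Let `A i j`, for `i < j` and `m ≤ j`, be elements of a topological group `P` which satisfy
Artin's relations between the standard generators of the fundamental group of the space of
configurations of `n - m` points in the plane with `m` punctures, and let `K` be a field with a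
Hausdorff topology. Let `ρ` be a continuous homomorphism from `P` to `PGL₂(K)` which can be lifted
to a homomorphism to `GL₂(K)`, or such that no `ρ (A i j)` has order two. Then the `ρ (A i j)`
commute with each other, or `ρ` is trivial on one of the closed normal subgroups generated by
`pointRel m A v`, `tripleRel m A a b c` or `quadRel m A a b c d`. The quotients of the fundamental
group by these subgroups are the fundamental groups of the plane with `m` punctures and of the
sphere with three punctures. -/
theorem result {K : Type*} [Field K] [TopologicalSpace K] [T2Space K] {P : Type*} [Group P]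
    [TopologicalSpace P] [IsTopologicalGroup P] {m n : ℕ} (A : Fin n → Fin n → P)
    (hA : PureBraid m A) (ρ : P →* GL (Fin 2) K ⧸ Subgroup.center (GL (Fin 2) K))
    (hρ : Continuous ρ)
    (h2 : (∃ ρ' : P →* GL (Fin 2) K, ∀ g, ρ g = ρ' g) ∨
      ∀ i j, i < j → m ≤ j.val → ρ (A i j) ^ 2 = 1 → ρ (A i j) = 1) :
    (∀ i j k l, i < j → m ≤ j.val → k < l → m ≤ l.val → Commute (ρ (A i j)) (ρ (A k l))) ∨
      Factors m A fun g => ρ g = 1 := by
  rcases h2 with ⟨ρ', h2⟩ | h2
  · rcases hA.factors (Q := fun g => ρ g = 1) ct_scalars ρ' (fun _ _ _ _ => Set.mem_univ _)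
      (fun R hR => ker_closure hρ fun x hx => by
        rw [h2, QuotientGroup.eq_one_iff, mem_center_iff]
        exact hR x hx) with h3 | h3
    · left
      intro i j k l h4 h5 h6 h7
      have h8 := h3 i j k l h4 h5 h6 h7
      rw [h2, h2]
      show ((ρ' (A i j) : GL (Fin 2) K) : GL (Fin 2) K ⧸ Subgroup.center (GL (Fin 2) K)) *
        (ρ' (A k l) : GL (Fin 2) K) = (ρ' (A k l) : GL (Fin 2) K) * (ρ' (A i j) : GL (Fin 2) K)
      rw [← QuotientGroup.mk_mul, h8.eq, QuotientGroup.mk_mul]
    · exact Or.inr h3
  · exact hA.factors ct_pgl ρ h2 fun R hR =>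
      ker_closure hρ fun x hx => Subgroup.mem_bot.1 (hR x hx)

end Pool.Agent.Results.MP_80bee4_ag.TypeAOne
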