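import Pool.Agent.Lib.GeoOrig.CurveTwo

/-!
# Sheaves of type `A₁` on configuration spaces of curves of any genus

In the application `P` is the tame fundamental group of the space of configurations of `n - m`
points on a smooth affine curve over a finite field, of genus `g` and with `p > 0` points at
infinity, and `m = 2 g + p - 1`.
-/

open Matrix Pool.Agent.BraidRep

namespace Pool.Agent.Results.MP_80bee4_ag.TypeAOneAllCurves

/-- Let `A i j`, for `i < j` and `m ≤ j`, be elements of a topological group `P` which satisfy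
Bellingeri's relations between the standard generators of the fundamental group of the space of
configurations of points on a surface of genus `g` with `m - 2 g + 1` punctures (`i < 2 g`:
handles, `2 g ≤ i < m`: all punctures but one, `i ≥ m`: moving points). Let `K` be a field with a
Hausdorff topology and `ρ : P → PGL₂(K)` a continuous homomorphism which can be lifted to a
homomorphism to `GL₂(K)`, or, if the characteristic of `K` is not two, such that no `ρ (A i j)` with
`i ≥ 2 g` has order two (these are the local monodromies where two points meet or a point meets a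
puncture). Suppose that for every moving point `v` either `ρ` is trivial on all `A i v` and
`A v i`, or only `1` commutes with all `ρ (A i v)` and `ρ (A v i)`. Then there are a set `S` of
punctures and a set `T` of moving points, with `|T| ≤ 1` or `2 g + |S| + |T| ≤ 4`, such that `ρ` is
trivial on the closed normal subgroup generated by the `A i j` such that `j` or a moving point `i`
is not in `T`, or `i` is a puncture which is not in `S`. -/
theorem result {K : Type*} [Field K] [TopologicalSpace K] [T2Space K] {P : Type*} [Group P]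
    [TopologicalSpace P] [IsTopologicalGroup P] {g m n : ℕ} (A : Fin n → Fin n → P)
    (hA : CurveBraid g m A) (ρ : P →* GL (Fin 2) K ⧸ Subgroup.center (GL (Fin 2) K))
    (hρ : Continuous ρ)
    (h2 : (∃ ρ' : P →* GL (Fin 2) K, ∀ x, ρ x = ρ' x) ∨ ((2 : K) ≠ 0 ∧
      ∀ i j, 2 * g ≤ i.val → i < j → m ≤ j.val → ρ (A i j) ^ 2 = 1 → ρ (A i j) = 1))
    (hN : ∀ v : Fin n, m ≤ v.val →
      (∀ i, (i < v → ρ (A i v) = 1) ∧ (v < i → ρ (A v i) = 1)) ∨
      ∀ y, (∀ i, (i < v → Commute y (ρ (A i v))) ∧ (v < i → Commute y (ρ (A v i)))) → y = 1) :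
    ∃ S T : Finset (Fin n), (∀ k ∈ S, 2 * g ≤ k.val ∧ k.val < m) ∧ (∀ v ∈ T, m ≤ v.val) ∧
      (T.card ≤ 1 ∨ 2 * g + S.card + T.card ≤ 4) ∧
      ∀ x ∈ (Subgroup.normalClosure {x | ∃ i j, i < j ∧ m ≤ j.val ∧
        (j ∉ T ∨ (m ≤ i.val ∧ i ∉ T) ∨ (2 * g ≤ i.val ∧ i.val < m ∧ i ∉ S)) ∧
          x = A i j}).topologicalClosure, ρ x = 1 := by
  have key : ∀ v : Fin n, ∀ (Q : GL (Fin 2) K ⧸ Subgroup.center (GL (Fin 2) K) → Prop),
      (∀ i, i ≠ v → Q (ρ (sy A i v))) ↔ ∀ i, (i < v → Q (ρ (A i v))) ∧ (v < i → Q (ρ (A v i))) := by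
    intro v Q
    constructor
    · intro h i
      refine ⟨fun hi => ?_, fun hi => ?_⟩
      · have := h i hi.ne
        rwa [sy_of_lt hi] at this
      · have := h i hi.ne'
        rwa [sy_of_gt hi] at this
    · intro h i hi
      rcases lt_or_gt_of_ne hi with h1 | h1
      · rw [sy_of_lt h1]
        exact (h i).1 h1
      · rw [sy_of_gt h1]
        exact (h i).2 h1
  have hN' : ∀ v : Fin n, m ≤ v.val → (∀ i, i ≠ v → ρ (sy A i v) = 1) ∨
      ∀ y, (∀ i, i ≠ v → Commute y (ρ (sy A i v))) → y = 1 := by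
    intro v hv
    rcases hN v hv with h | h
    · exact Or.inl ((key v fun z => z = 1).2 h)
    · exact Or.inr fun y hy => h y ((key v fun z => Commute y z).1 hy)
  suffices hmain : ∃ S T : Finset (Fin n), (∀ k ∈ S, 2 * g ≤ k.val ∧ k.val < m) ∧
      (∀ v ∈ T, m ≤ v.val) ∧ (T.card ≤ 1 ∨ 2 * g + S.card + T.card ≤ 4) ∧
      ∀ i j, i < j → m ≤ j.val → (j ∉ T ∨ (m ≤ i.val ∧ i ∉ T) ∨
        (2 * g ≤ i.val ∧ i.val < m ∧ i ∉ S)) → ρ (A i j) = 1 by
    obtain ⟨S, T, a1, a2, a3, a4⟩ := hmain
    refine ⟨S, T, a1, a2, a3, ker_closure hρ ?_⟩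
    rintro x ⟨i, j, b1, b2, b3, rfl⟩
    exact a4 i j b1 b2 b3
  rcases h2 with ⟨ρ', hρ'⟩ | ⟨h0, h2⟩
  · exact hA.type ρ' (C := Set.univ) (fun _ _ _ _ => Set.mem_univ _)
      (fun _ _ _ => Set.mem_univ _) (skewOn_gl (by norm_num : 0 < 2)) ρ
      (fun x hx => by rw [hρ', hx]; rfl) hN'
  · exact hA.typeOf ρ (fun s j hs hsj h1 U hU =>
      (hA.map ρ).bound_pg h0 h2 hs hsj h1 U hU) hN'

end Pool.Agent.Results.MP_80bee4_ag.TypeAOneAllCurves
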